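import Pool.Agent.H12.S3.Defs

/-!
# [H1 S3 ONTO] stage 3, chapter D: rich letters imply surjectivity

* `onto_sub`: a subgroup of the `p`-group `P` which covers `P ⧸ Tc c` and meets the conjugacy class of every `c.g i` is `P`.
* `hom_onto`: the same for homomorphisms of the fibre of a surjective `φb`. `rrl_onto`, `wl_onto`: rich letters (`1 ≤ M`), respectively `wL ≠ 0`, imply surjectivity.
* `FSn`: `FS` without surjectivity. `fs_fsn`: the sums of `wL` (times any `F`) over `FS` and over `FSn` are equal.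
-/

set_option autoImplicit false

open scoped NumberField
open IsDedekindDomain Filter Topology
open scoped Classical

noncomputable section

namespace H1.S3

open H12.S3 H38.ML H63.MA H38.BB H38.BG H57.PC H57.BRA H38.AS H77.WD H77.WE H77.GL H77.PC3 H77.S0T H77.FLD H77.PLF
  H35.CF H35.UB H35.AC H51.PF H51.AC2 H51.F3 H24.RK H62.BL H86.AP

variable {p N : ℕ} {P : Type} [Group P]

theorem onto_sub [Finite P] (hp : p.Prime) (hP : IsPGroup p P) (c : CL p N P) (H : Subgroup P)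
    (h1 : ∀ g : P, ∃ h ∈ H, h⁻¹ * g ∈ Tc c) (h2 : ∀ i, ∃ h ∈ H, IsConj h (c.g i)) : H = ⊤ := by
  by_contra hR
  obtain ⟨f, hf, hfR⟩ := pg_char hp hP H hR
  apply hf
  have hg : ∀ i, c.g i ∈ f.ker := by
    intro i
    obtain ⟨h, hh, hc⟩ := h2 i
    obtain ⟨g, hg⟩ := isConj_iff.1 hc
    rw [MonoidHom.mem_ker, ← hg, map_mul, map_mul, map_inv, hfR h hh, mul_one, mul_inv_cancel]
  have hk : Tc c ≤ f.ker := Subgroup.normalClosure_le_normal (by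
    rintro _ ⟨i, rfl⟩
    exact hg i)
  ext x
  obtain ⟨h, hh, hx⟩ := h1 x
  have h3 : f (h⁻¹ * x) = 1 := hk hx
  rw [map_mul, map_inv, hfR h hh, inv_one, one_mul] at h3
  rw [h3]
  rfl

section hom

variable {Γ : Type} [Group Γ]

theorem hom_onto [Finite P] (hp : p.Prime) (hP : IsPGroup p P) (c : CL p N P) {φb φ : Γ →* P}
    (hb : Function.Surjective φb) (h : ∀ σ, (φb σ)⁻¹ * φ σ ∈ Tc c)
    (hr : ∀ i, ∃ σ, IsConj (φ σ) (c.g i)) : Function.Surjective φ := by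
  rw [← MonoidHom.range_eq_top]
  refine onto_sub hp hP c φ.range (fun g => ?_) fun i => ?_
  · obtain ⟨σ, rfl⟩ := hb g
    refine ⟨φ σ, ⟨σ, rfl⟩, ?_⟩
    have h1 := (Tc c).inv_mem (h σ)
    rwa [mul_inv_rev, inv_inv] at h1
  · obtain ⟨σ, hσ⟩ := hr i
    exact ⟨φ σ, ⟨σ, rfl⟩, hσ⟩

end hom

variable {K : IntermediateField ℚ QBar} [NumberField K] {ζ : K} {D : RD0 K p ζ}

theorem rrl_onto [Fintype P] (hp : p.Prime) (hP : IsPGroup p P) (c : CL p N P) {L : LDs D QBar}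
    (Fr : FR L) {φb φ : Gal(QBar/K) →* P} (hb : Function.Surjective φb)
    (h : ∀ σ, (φb σ)⁻¹ * φ σ ∈ Tc c) {E : Finset (Pl K)} {M : ℕ} (hM : 1 ≤ M) {T₀ Y : ℝ}
    {Z : Finset (Pl K)} {τ : Pl K → P} (hr : H12.S3.lft c L Z φ τ ∈ RRL c Fr φb E M T₀ Y) :
    Function.Surjective φ := by
  refine hom_onto hp hP c hb h fun i => ?_
  have h1 := (Finset.mem_filter.1 hr).2.1 ⟨c.g i, i, IsConj.refl _⟩
  obtain ⟨v, hv⟩ := Finset.card_pos.1 (lt_of_lt_of_le (Nat.lt_of_lt_of_le Nat.zero_lt_one hM) h1)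
  have h2 : H12.S3.lft c L Z φ τ v = some ⟨c.g i, i, IsConj.refl _⟩ := by
    unfold pl at hv
    simp only [Finset.mem_filter] at hv
    exact hv.1.2
  unfold H12.S3.lft at h2
  split_ifs at h2 with h3
  have h4 : (τ v)⁻¹ * φ (L.t v) * τ v = c.g i := congrArg Subtype.val (Option.some.inj h2)
  refine ⟨L.t v, isConj_iff.2 ⟨(τ v)⁻¹, ?_⟩⟩
  rw [inv_inv, h4]

theorem wl_onto [Fintype P] (hp : p.Prime) (hP : IsPGroup p P) (c : CL p N P) {L : LDs D QBar}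
    (Fr : FR L) {φb φ : Gal(QBar/K) →* P} (hb : Function.Surjective φb)
    (h : ∀ σ, (φb σ)⁻¹ * φ σ ∈ Tc c) {E : Finset (Pl K)} {M : ℕ} (hM : 1 ≤ M) {T₀ Y : ℝ}
    (hw : wL c Fr φb E M T₀ Y φ ≠ 0) : Function.Surjective φ := by
  have h1 : ∃ τ : ↥(ZZ D Y \ E) → Tc c,
      H12.S3.lft c L (ZZ D Y \ E) φ (xt τ) ∈ RRL c Fr φb E M T₀ Y := by
    by_contra hne
    push Not at hne
    apply hw
    unfold wL
    rw [Finset.sum_eq_zero fun τ _ => if_neg (hne τ), zero_div]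
  obtain ⟨τ, hτ⟩ := h1
  exact rrl_onto hp hP c Fr hb h hM hτ

/-- `FS` without surjectivity -/
def FSn (L : LDs D QBar) (Fr : FR L) (Q : DP K QBar) (c : CL p N P)
    (φb φ' : Gal(QBar/K) →* P) (E : Finset (Pl K)) (Y : ℝ) : Set (Gal(QBar/K) →* P) :=
  {φ | FT φ ∧ (∀ σ, (φb σ)⁻¹ * φ σ ∈ Tc c) ∧ TqT D.S0 Q (Tc c) φ φ' ∧
    (∀ v ∈ E, ∃ g ∈ Tc c, φ (L.t v) = g * φ' (L.t v) * g⁻¹ ∧ φ (Fr.F v) = g * φ' (Fr.F v) * g⁻¹) ∧
    (∀ v, v ∉ D.S0 → v ∉ E → φ (L.t v) ≠ 1 → D.Gd v ∧ ∃ j, IsConj (φ (L.t v)) (c.g j)) ∧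
    ∀ X : Finset (Pl K), (∀ v ∈ X, v ∉ D.S0 ∧ v ∉ E ∧ φ (L.t v) ≠ 1) → nr X ≤ Y}

theorem fs_iff (L : LDs D QBar) (Fr : FR L) (Q : DP K QBar) (c : CL p N P)
    (φb φ' : Gal(QBar/K) →* P) (E : Finset (Pl K)) (Y : ℝ) (φ : Gal(QBar/K) →* P) :
    φ ∈ FS L Fr Q c φb φ' E Y ↔ φ ∈ FSn L Fr Q c φb φ' E Y ∧ Function.Surjective φ :=
  ⟨fun ⟨h1, h2, h3⟩ => ⟨⟨h1, h3⟩, h2⟩, fun ⟨⟨h1, h3⟩, h2⟩ => ⟨h1, h2, h3⟩⟩

theorem fs_fsn [Fintype P] (hp : p.Prime) (hP : IsPGroup p P) (c : CL p N P) {L : LDs D QBar}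
    (Fr Fr' : FR L) (Q : DP K QBar) {φb φ' : Gal(QBar/K) →* P} (hb : Function.Surjective φb)
    {E : Finset (Pl K)} {M : ℕ} (hM : 1 ≤ M) {T₀ Y : ℝ} (F : (Gal(QBar/K) →* P) → ℝ) :
    ∑ᶠ φ ∈ FS L Fr Q c φb φ' E Y, F φ * wL c Fr' φb E M T₀ Y φ =
      ∑ᶠ φ ∈ FSn L Fr Q c φb φ' E Y, F φ * wL c Fr' φb E M T₀ Y φ := by
  refine finsum_congr fun φ => ?_
  by_cases hφ : φ ∈ FSn L Fr Q c φb φ' E Y
  · by_cases hs : Function.Surjective φ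
    · rw [finsum_eq_if, finsum_eq_if, if_pos hφ, if_pos ((fs_iff L Fr Q c φb φ' E Y φ).2 ⟨hφ, hs⟩)]
    · have h0 : wL c Fr' φb E M T₀ Y φ = 0 := by
        by_contra hne
        exact hs (wl_onto hp hP c Fr' hb hφ.2.1 hM hne)
      rw [h0, mul_zero, finsum_zero, finsum_zero]
  · have h1 : φ ∉ FS L Fr Q c φb φ' E Y := fun h => hφ ((fs_iff L Fr Q c φb φ' E Y φ).1 h).1
    rw [finsum_eq_if, finsum_eq_if, if_neg hφ, if_neg h1]

theorem fs_fsn_one [Fintype P] (hp : p.Prime) (hP : IsPGroup p P) (c : CL p N P)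
    {L : LDs D QBar} (Fr Fr' : FR L) (Q : DP K QBar) {φb φ' : Gal(QBar/K) →* P}
    (hb : Function.Surjective φb) {E : Finset (Pl K)} {M : ℕ} (hM : 1 ≤ M) {T₀ Y : ℝ} :
    ∑ᶠ φ ∈ FS L Fr Q c φb φ' E Y, wL c Fr' φb E M T₀ Y φ =
      ∑ᶠ φ ∈ FSn L Fr Q c φb φ' E Y, wL c Fr' φb E M T₀ Y φ := by
  have h := fs_fsn hp hP c Fr Fr' Q (φ' := φ') hb (E := E) hM (T₀ := T₀) (Y := Y) fun _ => 1
  simpa only [one_mul] using h

end H1.S3
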