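import Pool.Agent.H1.S3.Fbs
import Pool.Agent.H71.S3.Odf
import Pool.Agent.H73.S3.Adf
import Pool.Agent.H73.S3.Fou

/-!
# [H1 S3 OCY] stage 1, product form for one configuration and one family of values (MP_b39724_nt, stage 3, chapter B)

`kap κ₀ h`: the values at the letters. `sg_eq`: `sg Y κ = sgE κ₀ h`. `core_eq`: `ep (phs) T0 = ∏ w1 * Q1`.
-/

set_option autoImplicit false

open scoped NumberField commutatorElement
open IsDedekindDomain
open scoped Classical

noncomputable section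

namespace H71.S3

open H63.MA H38.BB H38.BG H57.PC H57.BRA H77.WD H77.WE H77.PC3 H35.CF H35.UB H77.S3 H1.S3 H73.S3
  H1.S3.Fbs

attribute [local instance 50] Fintype.ofFinite

variable {K : Type} [Field K] [NumberField K] {Ω : Type} [Field Ω] [Algebra K Ω]
  {p N : ℕ} {ζ : K} {D : RD0 K p ζ} {Q : DP K Ω} {A : GS D Ω} {P : Type} [Group P]
  {c : CL p N P} {S : Type} [Group S] [MulDistribMulAction P S] {q : ℕ}

variable (G : SG c S) (B : SD D Q A) (X : FD A P S) (W : WF A)

/-- the values at the letters -/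
def kap (κ₀ : J0 X → Du S q 1) (h : Pl K → Option (La c S q)) (j : Pl K ⊕ Fin A.g) : Du S q 1 :=
  if hj : j ∈ J0 X then κ₀ ⟨j, hj⟩ else Sum.elim (kv h) (fun _ => 0) j

theorem mem_j0 (v : Pl K) : Sum.inl v ∈ J0 X ↔ v ∈ X.E := by
  unfold H73.S3.J0
  rw [Finset.inl_mem_disjSum]

theorem mem_j0' (i : Fin A.g) : Sum.inr i ∈ J0 X := by
  unfold H73.S3.J0
  exact Finset.inr_mem_disjSum.2 (Finset.mem_univ i)

theorem kap_pos (κ₀ : J0 X → Du S q 1) (h : Pl K → Option (La c S q)) {j : Pl K ⊕ Fin A.g}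
    (hj : j ∈ J0 X) : kap X κ₀ h j = κ₀ ⟨j, hj⟩ := by
  unfold kap
  rw [dif_pos hj]

theorem kap_neg (κ₀ : J0 X → Du S q 1) (h : Pl K → Option (La c S q)) {j : Pl K ⊕ Fin A.g}
    (hj : j ∉ J0 X) : kap X κ₀ h j = Sum.elim (kv h) (fun _ => 0) j := by
  unfold kap
  rw [dif_neg hj]

theorem l1_some {h : Pl K → Option (La c S q)} {v : Pl K} {b : La c S q} (hb : h v = some b) :
    l1 h v = some b.1 := by
  unfold l1
  rw [hb]
  rfl

theorem l1_none {h : Pl K → Option (La c S q)} {v : Pl K} : l1 h v = none ↔ h v = none := by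
  unfold l1
  exact Option.map_eq_none_iff

theorem sp_l1 (Zc : Finset (Pl K)) (h : Pl K → Option (La c S q)) : sp Zc (l1 h) = sp Zc h := by
  ext v
  rw [mem_sp, mem_sp]
  exact and_congr Iff.rfl (not_congr l1_none)

/-- the homomorphisms agree -/
theorem sg_eq (T : ℝ) (Zc : Finset (Pl K)) (f : Pl K → Option (Px c)) (κ₀ : J0 X → Du S q 1)
    (h : Pl K → Option (La c S q)) (hh : ∀ v, v ∉ Zc → h v = none) (hf : l1 h = f)
    (κ : (adf G B X W T Zc f).Jf → Du S q 1) (hκ : ∀ j, κ j = kap X κ₀ h j) :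
    sg (adf G B X W T Zc f) κ = sgE X W κ₀ h := by
  refine FreeGroup.ext_hom _ _ fun j => ?_
  unfold sg sgE
  rw [FreeGroup.lift_apply_of, FreeGroup.lift_apply_of]
  refine Sd.ext ?_ ?_
  · dsimp only
    have e : (if hj : j ∈ J0 X then κ₀ ⟨j, hj⟩ else Sum.elim (kv h) (fun _ => 0) j) =
        kap X κ₀ h j := by
      by_cases hj : j ∈ J0 X
      · rw [dif_pos hj, kap_pos X κ₀ h hj]
      · rw [dif_neg hj, kap_neg X κ₀ h hj]
    rw [e]
    by_cases hj : j ∈ (adf G B X W T Zc f).Jf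
    · rw [dif_pos hj, hκ]
    · rw [dif_neg hj]
      rcases j with v | i
      · have h1 : v ∉ sp Zc f ∪ X.E := fun h2 => hj (Finset.inl_mem_disjSum.2 h2)
        rw [Finset.mem_union, not_or] at h1
        rw [kap_neg X κ₀ h fun h2 => h1.2 ((mem_j0 X v).1 h2), Sum.elim_inl]
        have h3 : h v = none := by
          by_cases hv : v ∈ Zc
          · by_contra h4
            apply h1.1
            rw [mem_sp, ← hf]
            exact ⟨hv, fun h5 => h4 (l1_none.1 h5)⟩
          · exact hh v hv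
        unfold kv
        rw [h3]
        rfl
      · exact absurd (Finset.inr_mem_disjSum.2 (Finset.mem_univ i)) hj
  · show ((adf G B X W T Zc f).t j).right = Sum.elim (fun v => if v ∈ X.E then X.φ (W.L.t v) else 1)
      (fun i => X.φ (A.a i)) j
    rcases j with v | i
    · show (if v ∈ X.E then (⟨X.sv v, X.φ (W.L.t v)⟩ : SP S P) else
        (if v ∈ Zc then f v else none).elim 1 fun s => il (G.y s)).right =
        if v ∈ X.E then X.φ (W.L.t v) else 1
      by_cases hv : v ∈ X.E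
      · rw [if_pos hv, if_pos hv]
      · rw [if_neg hv, if_neg hv]
        cases h3 : (if v ∈ Zc then f v else none) with
        | none => rfl
        | some s => rfl
    · rfl

/-- the part in `P` -/
theorem sge_x (T : ℝ) (Zc : Finset (Pl K)) (f : Pl K → Option (Px c)) (κ₀ : J0 X → Du S q 1)
    (h : Pl K → Option (La c S q)) (w : FW A) :
    (sgE X W κ₀ h w).x = (adf G B X W T Zc f).ph w := by
  have h1 : (Sd.pr (F := P) (N := Du S q 1)).comp (sgE X W κ₀ h) = (adf G B X W T Zc f).ph := by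
    refine FreeGroup.ext_hom _ _ fun j => ?_
    unfold sgE AD.ph
    rw [MonoidHom.comp_apply, FreeGroup.lift_apply_of, FreeGroup.lift_apply_of]
    show Sum.elim (fun v => if v ∈ X.E then X.φ (W.L.t v) else 1) (fun i => X.φ (A.a i)) j =
      ((adf G B X W T Zc f).t j).right
    rcases j with v | i
    · show (if v ∈ X.E then X.φ (W.L.t v) else 1) = (if v ∈ X.E then (⟨X.sv v, X.φ (W.L.t v)⟩ :
        SP S P) else (if v ∈ Zc then f v else none).elim 1 fun s => il (G.y s)).right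
      by_cases hv : v ∈ X.E
      · rw [if_pos hv, if_pos hv]
      · rw [if_neg hv, if_neg hv]
        cases h3 : (if v ∈ Zc then f v else none) with
        | none => rfl
        | some s => rfl
    · rfl
  exact congrArg (fun F => F w) h1

/-- the commutator at a place of the support -/
theorem com_one (κ₀ : J0 X → Du S q 1) (h : Pl K → Option (La c S q)) (hK : Kc B X W κ₀ h) {v : Pl K} (hl : v ∈ W.l)
    (hS : v ∉ D.S0) (hE : v ∉ X.E) :
    sgE X W κ₀ h ⁅(FreeGroup.of (Sum.inl v) : FW A), W.Wv v⁆ = 1 := by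
  have h1 := hK v hl
  have h2 : blA B v = [Sum.inl v] := by
    unfold blA
    rw [if_neg hS]
  rw [h2, H73.S3.wd_one] at h1
  have h3 : (sgE X W κ₀ h (FreeGroup.of (Sum.inl v))).x = 1 := by
    unfold sgE
    rw [FreeGroup.lift_apply_of]
    show (if v ∈ X.E then X.φ (W.L.t v) else 1) = 1
    rw [if_neg hE]
  refine Sd.ext h1 ?_
  have h4 : Sd.pr (sgE X W κ₀ h ⁅(FreeGroup.of (Sum.inl v) : FW A), W.Wv v⁆) = 1 := by
    rw [map_commutatorElement, map_commutatorElement]
    have h5 : Sd.pr (sgE X W κ₀ h (FreeGroup.of (Sum.inl v))) = 1 := h3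
    rw [h5, commutatorElement_one_left]
  exact h4

/-- the value of `Pi` -/
theorem Pi_ilr (u : S) (g : P) : G.Pi (il u * SemidirectProduct.inr g) = G.pi u * g := by
  rw [SG.Pi_mk]
  have h1 : (il u * SemidirectProduct.inr g : SP S P).left = u := by
    rw [SemidirectProduct.mul_left]
    show u * ((1 : P) • (1 : S)) = u
    rw [one_smul, mul_one]
  have h2 : (il u * SemidirectProduct.inr g : SP S P).right = g := by
    rw [SemidirectProduct.mul_right]
    show 1 * g = g
    rw [one_mul]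
  rw [h1, h2]

/-- characters and sums -/
theorem psi_sum {R ι : Type} [AddCommGroup R] (ψ : AddChar R ℂ) (s : Finset ι) (f : ι → R) :
    ψ (∑ i ∈ s, f i) = ∏ i ∈ s, ψ (f i) := by
  induction s using Finset.induction_on with
  | empty => rw [Finset.sum_empty, Finset.prod_empty, AddChar.map_zero_eq_one]
  | insert a s ha ih =>
    rw [Finset.sum_insert ha, Finset.prod_insert ha, AddChar.map_add_eq_mul, ih]

/-- the phase of a letter -/
def PZ (κ₀ : J0 X → Du S q 1) (h : Pl K → Option (La c S q)) : Pl K ⊕ Fin A.g → ZMod q :=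
  Sum.elim (fun v => (h v).elim 0 fun b =>
    (sgE X W κ₀ h (W.Wv v)).n.ap (X.φ (W.Fr.F v) • gk 1 (G.y b.1))) fun _ => 0

/-- the functional of a letter -/
def RZ {g : ℕ} (h : Pl K → Option (La c S q)) (j : Pl K ⊕ Fin g) (s : S) : ZMod q :=
  Sum.elim (fun v => (h v).elim 0 fun b => b.2.ap (gk 1 s)) (fun _ => 0) j

/-- the class of the block of a letter -/
def BZ (h : Pl K → Option (La c S q)) (j : Pl K ⊕ Fin A.g) (s : S) : AN G.Pi :=
  Sum.elim (fun v => (h v).elim 0 fun b => nk G.Pi (⁅(il (G.y b.1) : SP S P), il s *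
    SemidirectProduct.inr (X.φ (W.Fr.F v))⁆).left) (fun _ => 0) j

/-- the condition of a letter -/
def CZ (h : Pl K → Option (La c S q)) (j : Pl K ⊕ Fin A.g) (s : S) : Prop :=
  Sum.elim (fun v => ∀ b, h v = some b → Commute b.1.1 (G.pi s * X.φ (W.Fr.F v)))
    (fun _ => True) j

/-- the local function -/
def aZ (ψ : AddChar (AN G.Pi) ℂ) (κ₀ : J0 X → Du S q 1)
    (h : Pl K → Option (La c S q)) (j : Pl K ⊕ Fin A.g) (s : S) : ℂ :=
  if CZ G X W h j s then ep q (PZ G X W κ₀ h j) * (ψ (BZ G X W h j s) * ep q (-RZ h j s)) else 0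

theorem core_eq [Fintype S] [NeZero q] [Finite P] {k Mw : ℕ} (hX : X.Ok G B W) (hW : W.Ok B k Mw)
    (hP : Sml p k Mw P) (T : ℝ) (Zc : Finset (Pl K)) (hZ : Disjoint Zc X.E) (hZc : Zc ⊆ W.Z)
    (hE : X.E ⊆ W.Z) (f : Pl K → Option (Px c)) (κ₀ : J0 X → Du S q 1)
    (h : Pl K → Option (La c S q)) (hh : ∀ v, v ∉ Zc → h v = none) (hf : l1 h = f)
    (hpp : ∀ v ∈ sp Zc h, PPc X W T v → kv h v = 0) (hK : Kc B X W κ₀ h)
    (κ : (adf G B X W T Zc f).Jf → Du S q 1) (hκ : ∀ j, κ j = kap X κ₀ h j)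
    (ψ : AddChar (AN G.Pi) ℂ) :
    ep q (phs (adf G B X W T Zc f) (ck (adf G B X W T Zc f) κ)) *
        T0 (adf G B X W T Zc f) G.Pi (ck (adf G B X W T Zc f) κ) ψ =
      om Zc (fun v a => w1 G ψ a.1 (X.φ (W.Fr.F v)) a.2 (sgE X W κ₀ h (W.Wv v)).n) h *
        Q1 G B X W ψ (fun w => (sgE X W κ₀ h w).n) FreeGroup.of (Sum.elim W.Wv W.Wi) := by
  have hsg := sg_eq G B X W T Zc f κ₀ h hh hf κ hκ
  have hck : ck (adf G B X W T Zc f) κ = fun w => (sgE X W κ₀ h w).n := by
    funext w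
    unfold ck
    rw [hsg]
  rw [hck]
  obtain ⟨Φ, hΦ⟩ : ∃ Φ, Φ = sgE X W κ₀ h := ⟨_, rfl⟩
  have hcom : ∀ v ∈ sp Zc f, Φ ⁅(FreeGroup.of (Sum.inl v) : FW A), W.Wv v⁆ = 1 := by
    intro v hv
    have h1 := (mem_sp.1 hv).1
    rw [hΦ]
    exact com_one B X W κ₀ h hK ((hW.lz v).2 (Or.inl (hZc h1))) (hW.zs v (hZc h1))
      fun h2 => Finset.disjoint_left.1 hZ h1 h2
  have hΦx : ∀ w, (Φ w).x = (adf G B X W T Zc f).ph w := by
    intro w
    rw [hΦ]
    exact sge_x G B X W T Zc f κ₀ h w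
  obtain ⟨hph1, hph2⟩ := ph_v G B X W hX hW hP T Zc hZ hE f
  -- the data
  obtain ⟨Y, hY⟩ : ∃ Y, Y = adf G B X W T Zc f := ⟨_, rfl⟩
  rw [← hY] at hΦx hph1 hph2
  rw [← hY, ← hΦ]
  have Yl : Y.l = W.l := by rw [hY]; rfl
  have Ybl : ∀ v, Y.bl v = blA B v := by intro v; rw [hY]; rfl
  have Ypj : ∀ j, Y.pj j = Sum.elim id B.pl j := by intro j; rw [hY]; rfl
  have YW : Y.W = Sum.elim W.Wv W.Wi := by rw [hY]; rfl
  have Ypp : ∀ v, Y.pp (Sum.inl v) ↔ v ∈ sp Zc f ∧ PPc X W T v := by intro v; rw [hY]; exact Iff.rfl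
  have Ypp' : ∀ i, ¬Y.pp (Sum.inr i) := by intro i; rw [hY]; exact fun h => h
  have Yt : ∀ j, Y.t j = Sum.elim (fun v => if v ∈ X.E then ⟨X.sv v, X.φ (W.L.t v)⟩ else
    (if v ∈ Zc then f v else none).elim 1 fun s => il (G.y s)) (fun i => ⟨X.si i, X.φ (A.a i)⟩)
      j := by
    intro j
    rw [hY]
    rfl
  have YG : ∀ z, Y.G z ↔ (∀ v ∈ sp Zc f, ∀ s, f v = some s → Commute s.1 (G.Pi (z (Sum.inl v)))) ∧
      (∀ v ∈ X.E, G.Pi (z (Sum.inl v)) = X.l.F v) ∧ ∀ i, G.Pi (z (Sum.inr i)) = X.l.b i := by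
    intro z
    rw [hY]
    exact Iff.rfl
  have YJ : ∀ j, j ∈ Y.Jf ↔ j ∈ (sp Zc f).disjSum (∅ : Finset (Fin A.g)) ∨ j ∈ J0 X := by
    intro j
    rw [hY]
    show j ∈ (sp Zc f ∪ X.E).disjSum Finset.univ ↔ _ ∨ j ∈ X.E.disjSum Finset.univ
    rcases j with v | i
    · rw [Finset.inl_mem_disjSum, Finset.inl_mem_disjSum, Finset.inl_mem_disjSum,
        Finset.mem_union]
    · rw [Finset.inr_mem_disjSum, Finset.inr_mem_disjSum, Finset.inr_mem_disjSum]
      simp
  clear hY
  have hdis : ∀ v ∈ sp Zc f, v ∉ X.E := fun v hv hE' =>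
    Finset.disjoint_left.1 hZ (mem_sp.1 hv).1 hE'
  have hS0 : ∀ v ∈ sp Zc f, v ∉ D.S0 := fun v hv => hW.zs v (hZc (mem_sp.1 hv).1)
  have hd : Disjoint ((sp Zc f).disjSum (∅ : Finset (Fin A.g))) (J0 X) := by
    rw [Finset.disjoint_left]
    rintro (v | i) h1 h2
    · exact hdis v (Finset.inl_mem_disjSum.1 h1) ((mem_j0 X v).1 h2)
    · exact absurd (Finset.inr_mem_disjSum.1 h1) (Finset.notMem_empty i)
  obtain ⟨iZ, hiZ⟩ : ∃ iZ : ((sp Zc f).disjSum (∅ : Finset (Fin A.g))) → Y.Jf,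
      ∀ j, (iZ j : Pl K ⊕ Fin A.g) = j := ⟨fun j => ⟨j, (YJ j).2 (Or.inl j.2)⟩, fun _ => rfl⟩
  obtain ⟨iO, hiO⟩ : ∃ iO : J0 X → Y.Jf, ∀ j, (iO j : Pl K ⊕ Fin A.g) = j :=
    ⟨fun j => ⟨j, (YJ j).2 (Or.inr j.2)⟩, fun _ => rfl⟩
  have hb : ∀ v ∈ sp Zc f, ∃ b, h v = some b ∧ f v = some b.1 := by
    intro v hv
    have h1 := (mem_sp.1 hv).2
    rw [← hf] at h1
    obtain ⟨b, hb⟩ : ∃ b, h v = some b := by
      rw [← Option.ne_none_iff_exists']
      exact fun h2 => h1 (l1_none.2 h2)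
    exact ⟨b, hb, by rw [← hf]; exact l1_some hb⟩
  have Yy : ∀ v ∈ sp Zc f, ∀ b, h v = some b → Y.t (Sum.inl v) = il (G.y b.1) := by
    intro v hv b hb'
    rw [Yt, Sum.elim_inl, if_neg (hdis v hv), if_pos (mem_sp.1 hv).1, ← hf, l1_some hb']
    rfl
  have Yt0 : ∀ j ∈ J0 X, Y.t j = t0 X W j := by
    intro j hj
    rw [Yt]
    rcases j with v | i
    · rw [Sum.elim_inl, if_pos ((mem_j0 X v).1 hj)]
      rfl
    · rfl
  -- the phases
  have hphs : phs Y (fun w => (Φ w).n) = ∑ j : ((sp Zc f).disjSum (∅ : Finset (Fin A.g))),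
      PZ G X W κ₀ h j + -(∑ j : J0 X, (zet' (fun w => (Φ w).n) FreeGroup.of
        (Sum.elim W.Wv W.Wi) (blA B (Sum.elim id B.pl j.1)) j.1).ap (gk 1 (t0 X W j.1).left)) := by
    unfold phs
    rw [spl_sum YJ hd iZ iO hiZ hiO, ← Finset.sum_neg_distrib]
    congr 1
    · refine Finset.sum_congr rfl fun j _ => ?_
      rw [hiZ j]
      obtain ⟨v | i, hj⟩ := j
      · have hv := Finset.inl_mem_disjSum.1 hj
        obtain ⟨b, hb1, hb2⟩ := hb v hv
        have e1 : Y.y (Sum.inl v) = G.y b.1 := by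
          unfold AD.y
          rw [Yy v hv b hb1]
          rfl
        have e2 : PZ G X W κ₀ h (Sum.inl v) =
            ((Φ (W.Wv v)).n).ap (X.φ (W.Fr.F v) • gk 1 (G.y b.1)) := by
          unfold PZ
          rw [Sum.elim_inl, hb1, hΦ]
          rfl
        show (if Y.pp (Sum.inl v) then _ else _) = PZ G X W κ₀ h (Sum.inl v)
        rw [e2]
        by_cases hp1 : PPc X W T v
        · rw [if_pos ((Ypp v).2 ⟨hv, hp1⟩), e1, YW, hp1.2, one_smul]
          rfl
        · rw [if_neg fun h1 => hp1 ((Ypp v).1 h1).2, e1, YW, Ypj, Ybl]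
          have e3 : blA B (Sum.elim id B.pl (Sum.inl v)) = [Sum.inl v] := by
            unfold blA
            rw [Sum.elim_inl, id, if_neg (hS0 v hv)]
          rw [e3, zet'_sgl Φ FreeGroup.of (Sum.elim W.Wv W.Wi) (Sum.inl v) (hcom v hv),
            Sum.elim_inl, hΦx, hph1 v (hZc (mem_sp.1 hv).1), ap_neg, neg_neg, ap_smul, inv_inv]
      · exact absurd (Finset.inr_mem_disjSum.1 hj) (Finset.notMem_empty i)
    · refine Finset.sum_congr rfl fun j _ => ?_
      rw [hiO j]
      have hnp : ¬Y.pp j.1 := by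
        obtain ⟨v | i, hj⟩ := j
        · exact fun h1 => hdis v ((Ypp v).1 h1).1 ((mem_j0 X v).1 hj)
        · exact Ypp' i
      rw [if_neg hnp, YW, Ypj, Ybl]
      unfold AD.y
      rw [Yt0 j.1 j.2]
  -- the functionals
  have hpz : ∀ u : Y.Jf → S, pz Y (fun w => (Φ w).n) u =
      ∑ j : ((sp Zc f).disjSum (∅ : Finset (Fin A.g))), RZ h j.1 (u (iZ j)) +
      ∑ j : J0 X, (zeta (fun w => (Φ w).n) FreeGroup.of
        (Sum.elim W.Wv W.Wi) (blA B (Sum.elim id B.pl j.1)) j.1).ap (gk 1 (u (iO j))) := by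
    intro u
    unfold pz
    rw [spl_sum YJ hd iZ iO hiZ hiO]
    congr 1
    · refine Finset.sum_congr rfl fun j _ => ?_
      rw [hiZ j]
      obtain ⟨s, hs⟩ : ∃ s, s = u (iZ j) := ⟨_, rfl⟩
      rw [← hs]
      clear hs
      obtain ⟨v | i, hj⟩ := j
      · have hv := Finset.inl_mem_disjSum.1 hj
        obtain ⟨b, hb1, hb2⟩ := hb v hv
        have e2 : RZ (g := A.g) h (Sum.inl v) s = b.2.ap (gk 1 s) := by
          unfold RZ
          rw [Sum.elim_inl, hb1]
          rfl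
        show (if Y.pp (Sum.inl v) then _ else _) = RZ h (Sum.inl v) s
        rw [e2]
        by_cases hp1 : PPc X W T v
        · rw [if_pos ((Ypp v).2 ⟨hv, hp1⟩)]
          have e3 : kv h v = 0 := hpp v (by rw [← sp_l1, hf]; exact hv) hp1
          have e4 : b.2 = 0 := by
            unfold kv at e3
            rw [hb1] at e3
            exact e3
          rw [e4]
          rfl
        · rw [if_neg fun h1 => hp1 ((Ypp v).1 h1).2, YW, Ypj, Ybl]
          have e3 : blA B (Sum.elim id B.pl (Sum.inl v)) = [Sum.inl v] := by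
            unfold blA
            rw [Sum.elim_inl, id, if_neg (hS0 v hv)]
          have e5 : Φ (FreeGroup.of (Sum.inl v)) = ⟨b.2, 1⟩ := by
            have hE' := hdis v hv
            rw [hΦ]
            unfold sgE
            rw [FreeGroup.lift_apply_of]
            refine Sd.ext ?_ ?_
            · dsimp only
              rw [dif_neg fun h2 => hE' ((mem_j0 X v).1 h2), Sum.elim_inl]
              unfold kv
              rw [hb1]
              rfl
            · show (if v ∈ X.E then X.φ (W.L.t v) else 1) = 1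
              rw [if_neg hE']
          rw [e3, zeta_sgl Φ FreeGroup.of (Sum.elim W.Wv W.Wi) (Sum.inl v) (hcom v hv) (by
            rw [e5]), e5]
      · exact absurd (Finset.inr_mem_disjSum.1 hj) (Finset.notMem_empty i)
    · refine Finset.sum_congr rfl fun j _ => ?_
      rw [hiO j]
      have hnp : ¬Y.pp j.1 := by
        obtain ⟨v | i, hj⟩ := j
        · exact fun h1 => hdis v ((Ypp v).1 h1).1 ((mem_j0 X v).1 hj)
        · exact Ypp' i
      rw [if_neg hnp, YW, Ypj, Ybl]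
  -- the values
  have hmvZ : ∀ (u : Y.Jf → S) (v : Pl K) (hv : v ∈ sp Zc f), Y.mv u (x1 Y) (Sum.inl v) =
      il (u (iZ ⟨Sum.inl v, Finset.inl_mem_disjSum.2 hv⟩)) *
        SemidirectProduct.inr (X.φ (W.Fr.F v)) := by
    intro u v hv
    have hj := (YJ (Sum.inl v)).2 (Or.inl (Finset.inl_mem_disjSum.2 hv))
    have e : iZ ⟨Sum.inl v, Finset.inl_mem_disjSum.2 hv⟩ = ⟨Sum.inl v, hj⟩ := Subtype.ext (hiZ _)
    unfold AD.mv
    rw [dif_pos hj, e]
    unfold x1
    rw [YW, Sum.elim_inl, hph1 v (hZc (mem_sp.1 hv).1)]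
  have hmvO : ∀ (u : Y.Jf → S) (j : Pl K ⊕ Fin A.g), j ∈ J0 X →
      Y.mv u (x1 Y) j = x0 B X W (fun j => u (iO j)) j := by
    intro u j hj
    have hj' := (YJ j).2 (Or.inr hj)
    have e : iO ⟨j, hj⟩ = ⟨j, hj'⟩ := Subtype.ext (hiO _)
    unfold AD.mv x0
    rw [dif_pos hj', dif_pos hj]
    beta_reduce
    rw [e]
    unfold x1
    rw [YW]
    rcases j with v | i
    · rw [Sum.elim_inl, Sum.elim_inl, hph1 v (hE ((mem_j0 X v).1 hj))]
    · rw [Sum.elim_inr, Sum.elim_inr, hph2 i]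
  -- the conditions
  have hG : ∀ u : Y.Jf → S, Y.G (Y.mv u (x1 Y)) ↔
      (∀ j : ((sp Zc f).disjSum (∅ : Finset (Fin A.g))), CZ G X W h j.1 (u (iZ j))) ∧
        G0 G B X W (fun j => u (iO j)) := by
    intro u
    rw [YG]
    have h1 : (∀ v ∈ sp Zc f, ∀ s, f v = some s →
        Commute s.1 (G.Pi (Y.mv u (x1 Y) (Sum.inl v)))) ↔
        ∀ j : ((sp Zc f).disjSum (∅ : Finset (Fin A.g))), CZ G X W h j.1 (u (iZ j)) := by
      constructor
      · rintro h1 ⟨v | i, hj⟩
        · have hv := Finset.inl_mem_disjSum.1 hj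
          intro b hb'
          have h2 := h1 v hv b.1 (by rw [← hf]; exact l1_some hb')
          rw [hmvZ u v hv, Pi_ilr] at h2
          exact h2
        · exact absurd (Finset.inr_mem_disjSum.1 hj) (Finset.notMem_empty i)
      · intro h1 v hv s hs
        obtain ⟨b, hb1, hb2⟩ := hb v hv
        have e : s = b.1 := by
          rw [hb2] at hs
          exact (Option.some.inj hs).symm
        rw [hmvZ u v hv, Pi_ilr, e]
        exact h1 ⟨Sum.inl v, Finset.inl_mem_disjSum.2 hv⟩ b hb1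
    refine and_congr h1 ?_
    unfold G0
    constructor
    · rintro ⟨h2, h3⟩
      refine ⟨fun v hv => ?_, fun i => ?_⟩
      · rw [← hmvO u _ ((mem_j0 X v).2 hv)]
        exact h2 v hv
      · rw [← hmvO u _ (mem_j0' X i)]
        exact h3 i
    · rintro ⟨h2, h3⟩
      refine ⟨fun v hv => ?_, fun i => ?_⟩
      · rw [hmvO u _ ((mem_j0 X v).2 hv)]
        exact h2 v hv
      · rw [hmvO u _ (mem_j0' X i)]
        exact h3 i
  -- the blocks
  have hblk : ∀ u : Y.Jf → S, (Y.l.map fun v => nk G.Pi (Y.bk (Y.mv u (x1 Y)) v).left).sum =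
      ∑ j : ((sp Zc f).disjSum (∅ : Finset (Fin A.g))), BZ G X W h j.1 (u (iZ j)) +
      ∑ v ∈ BB D X.E, nk G.Pi (wd (t0 X W) (x0 B X W fun j => u (iO j)) (blA B v)).left := by
    intro u
    rw [Yl, ← List.sum_toFinset _ hW.nd]
    have hBB : ∀ v, v ∈ BB D X.E ↔ v ∈ D.S0 ∨ v ∈ X.E := by
      intro v
      unfold BB
      rw [Finset.mem_union]
    have hdB : Disjoint (sp Zc f) (BB D X.E) := by
      rw [Finset.disjoint_left]
      intro v h1 h2
      rcases (hBB v).1 h2 with h3 | h3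
      · exact hS0 v h1 h3
      · exact hdis v h1 h3
    have hsub : sp Zc f ∪ BB D X.E ⊆ W.l.toFinset := by
      intro v hv
      rw [List.mem_toFinset, hW.lz]
      rcases Finset.mem_union.1 hv with h1 | h1
      · exact Or.inl (hZc (mem_sp.1 h1).1)
      · rcases (hBB v).1 h1 with h3 | h3
        · exact Or.inr h3
        · exact Or.inl (hE h3)
    rw [← Finset.sum_subset hsub, Finset.sum_union hdB]
    · congr 1
      · rw [← Finset.sum_coe_sort (sp Zc f)]
        refine Fintype.sum_bijective (fun v : sp Zc f =>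
          (⟨Sum.inl v.1, Finset.inl_mem_disjSum.2 v.2⟩ :
            ((sp Zc f).disjSum (∅ : Finset (Fin A.g))))) ⟨?_, ?_⟩ _ _ ?_
        · intro v w h1
          exact Subtype.ext (Sum.inl.inj (congrArg Subtype.val h1))
        · rintro ⟨v | i, hj⟩
          · exact ⟨⟨v, Finset.inl_mem_disjSum.1 hj⟩, rfl⟩
          · exact absurd (Finset.inr_mem_disjSum.1 hj) (Finset.notMem_empty i)
        · rintro ⟨v, hv⟩
          obtain ⟨b, hb1, hb2⟩ := hb v hv
          have e1 : blA B v = [Sum.inl v] := by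
            unfold blA
            rw [if_neg (hS0 v hv)]
          show nk G.Pi (Y.bk (Y.mv u (x1 Y)) v).left = BZ G X W h (Sum.inl v) _
          unfold AD.bk BZ
          rw [Ybl, e1, H73.S3.wd_one, hmvZ u v hv, Yy v hv b hb1, Sum.elim_inl, hb1]
          rfl
      · refine Finset.sum_congr rfl fun v hv => ?_
        unfold AD.bk
        rw [Ybl]
        congr 2
        refine H73.S3.wd_congr fun j hj => ?_
        have hj0 : j ∈ J0 X := by
          unfold blA at hj
          by_cases hS : v ∈ D.S0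
          · rw [if_pos hS] at hj
            obtain ⟨i, -, e⟩ := List.mem_map.1 hj
            rw [← e]
            exact mem_j0' X i
          · rw [if_neg hS, List.mem_singleton] at hj
            rw [hj, mem_j0]
            exact ((hBB v).1 hv).resolve_left hS
        exact ⟨Yt0 j hj0, hmvO u j hj0⟩
    · intro v hv1 hv2
      rw [Finset.mem_union, not_or, hBB, not_or] at hv2
      have e1 : blA B v = [Sum.inl v] := by
        unfold blA
        rw [if_neg hv2.2.1]
      have e2 : Y.t (Sum.inl v) = 1 := by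
        rw [Yt, Sum.elim_inl, if_neg hv2.2.2]
        by_cases hvZ : v ∈ Zc
        · have hfv : f v = none := by
            by_contra h3
            exact hv2.1 (mem_sp.2 ⟨hvZ, h3⟩)
          rw [if_pos hvZ, hfv]
          rfl
        · rw [if_neg hvZ]
          rfl
      unfold AD.bk
      rw [Ybl, e1, H73.S3.wd_one, e2, commutatorElement_one_left]
      exact nk_one _
  -- the summands
  obtain ⟨Bf, hBf⟩ : ∃ Bf : (J0 X → S) → ℂ, Bf = fun u0 => if G0 G B X W u0 then
    b1 G B X W ψ (fun w => (Φ w).n) FreeGroup.of (Sum.elim W.Wv W.Wi) u0 else 0 := ⟨_, rfl⟩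
  have hterm : ∀ u : Y.Jf → S, ep q (phs Y fun w => (Φ w).n) * (if Y.G (Y.mv u (x1 Y)) then
      ψ ((Y.l.map fun v => nk G.Pi (Y.bk (Y.mv u (x1 Y)) v).left).sum) *
        ep q (-pz Y (fun w => (Φ w).n) u) else 0) =
      (∏ j : ((sp Zc f).disjSum (∅ : Finset (Fin A.g))), aZ G X W ψ κ₀ h j.1 (u (iZ j))) *
        Bf (fun j => u (iO j)) := by
    intro u
    by_cases hC : ∀ j : ((sp Zc f).disjSum (∅ : Finset (Fin A.g))), CZ G X W h j.1 (u (iZ j))
    · by_cases hG0 : G0 G B X W (fun j => u (iO j))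
      · have e1 : (∏ j : ((sp Zc f).disjSum (∅ : Finset (Fin A.g))),
            aZ G X W ψ κ₀ h j.1 (u (iZ j))) =
            ep q (∑ j : ((sp Zc f).disjSum (∅ : Finset (Fin A.g))), PZ G X W κ₀ h j) *
            (ψ (∑ j : ((sp Zc f).disjSum (∅ : Finset (Fin A.g))), BZ G X W h j.1 (u (iZ j))) *
            ep q (-∑ j : ((sp Zc f).disjSum (∅ : Finset (Fin A.g))), RZ h j.1 (u (iZ j)))) := by
          rw [← Finset.sum_neg_distrib, epq_sum, epq_sum, psi_sum,
            ← Finset.prod_mul_distrib, ← Finset.prod_mul_distrib]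
          refine Finset.prod_congr rfl fun j _ => ?_
          unfold aZ
          rw [if_pos (hC j)]
        rw [if_pos ((hG u).2 ⟨hC, hG0⟩), hblk u, hpz u, hphs, e1, hBf]
        beta_reduce
        rw [if_pos hG0]
        unfold b1
        rw [AddChar.map_add_eq_mul, neg_add, epq_add, epq_add, sub_eq_add_neg, epq_add]
        ring
      · rw [if_neg fun h1 => hG0 ((hG u).1 h1).2, hBf]
        beta_reduce
        rw [if_neg hG0, mul_zero, mul_zero]
    · rw [if_neg fun h1 => hC ((hG u).1 h1).1, mul_zero]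
      push Not at hC
      obtain ⟨j, hj⟩ := hC
      rw [Finset.prod_eq_zero (Finset.mem_univ j), zero_mul]
      unfold aZ
      rw [if_neg hj]
  unfold T0 Q1
  have hfs := fun (sU : Finset (Y.Jf → S)) (hsU : ∀ u, u ∈ sU) =>
    fib_sum YJ hd iZ iO hiZ hiO sU hsU Finset.univ
      (fun u => Finset.mem_univ u) (aZ G X W ψ κ₀ h) Bf
  rw [← mul_div_assoc, Finset.mul_sum, Finset.sum_congr rfl fun u _ => hterm u]
  rw [hfs]
  rotate_left
  · intro u
    simp
  rw [spl_card YJ hd iZ iO hiZ hiO, pow_add, ← div_mul_div_comm]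
  congr 1
  rotate_left
  · congr 1
    refine Finset.sum_congr (Finset.ext fun u => ⟨fun _ => Finset.mem_univ u, fun _ =>
      Finset.mem_univ u⟩) fun u _ => ?_
    rw [hBf]
  · -- the product of the local factors
    have e1 : (Fintype.card S : ℂ) ^ ((sp Zc f).disjSum (∅ : Finset (Fin A.g))).card =
        ∏ j : ((sp Zc f).disjSum (∅ : Finset (Fin A.g))), (Fintype.card S : ℂ) := by
      rw [Finset.prod_const, Finset.card_univ, Fintype.card_coe]
    rw [e1, ← Finset.prod_div_distrib]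
    unfold om
    have h4 : ∀ v ∈ Zc, v ∉ sp Zc f → ((h v).elim (1 : ℂ) fun a =>
        w1 G ψ a.1 (X.φ (W.Fr.F v)) a.2 ((Φ (W.Wv v)).n)) = 1 := by
      intro v hv hv2
      have hfv : h v = none := by
        by_contra h3
        refine hv2 (mem_sp.2 ⟨hv, fun h5 => h3 ?_⟩)
        rw [← hf] at h5
        exact l1_none.1 h5
      rw [hfv]
      rfl
    rw [← Finset.prod_subset (s₁ := sp Zc f) (fun v hv => (mem_sp.1 hv).1) h4,
      ← Finset.prod_coe_sort (sp Zc f)]
    symm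
    refine Fintype.prod_bijective (fun v : sp Zc f =>
      (⟨Sum.inl v.1, Finset.inl_mem_disjSum.2 v.2⟩ :
        ((sp Zc f).disjSum (∅ : Finset (Fin A.g))))) ⟨?_, ?_⟩ _ _ ?_
    · intro v w h1
      exact Subtype.ext (Sum.inl.inj (congrArg Subtype.val h1))
    · rintro ⟨v | i, hj⟩
      · exact ⟨⟨v, Finset.inl_mem_disjSum.1 hj⟩, rfl⟩
      · exact absurd (Finset.inr_mem_disjSum.1 hj) (Finset.notMem_empty i)
    · rintro ⟨v, hv⟩
      obtain ⟨b, hb1, hb2⟩ := hb v hv
      show (h v).elim 1 _ = (∑ s : S, aZ G X W ψ κ₀ h (Sum.inl v) s) / (Fintype.card S : ℂ)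
      rw [hb1, Option.elim_some]
      unfold w1 qf
      rw [← mul_div_assoc, Finset.mul_sum]
      congr 1
      refine Finset.sum_congr rfl fun s _ => ?_
      unfold aZ
      have e2 : PZ G X W κ₀ h (Sum.inl v) =
          ((Φ (W.Wv v)).n).ap (X.φ (W.Fr.F v) • gk 1 (G.y b.1)) := by
        unfold PZ
        rw [Sum.elim_inl, hb1, hΦ]
        rfl
      have e3 : RZ (g := A.g) h (Sum.inl v) s = b.2.ap (gk 1 s) := by
        unfold RZ
        rw [Sum.elim_inl, hb1]
        rfl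
      have e4 : BZ G X W h (Sum.inl v) s = nk G.Pi (⁅(il (G.y b.1) : SP S P), il s *
          SemidirectProduct.inr (X.φ (W.Fr.F v))⁆).left := by
        unfold BZ
        rw [Sum.elim_inl, hb1]
        rfl
      have e5 : CZ G X W h (Sum.inl v) s ↔ Commute b.1.1 (G.pi s * X.φ (W.Fr.F v)) := by
        unfold CZ
        rw [Sum.elim_inl]
        constructor
        · intro h5
          exact h5 b hb1
        · intro h5 b' hb'
          rw [hb1] at hb'
          rw [← Option.some.inj hb']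
          exact h5
      rw [e2, e3, e4]
      by_cases h6 : Commute b.1.1 (G.pi s * X.φ (W.Fr.F v))
      · rw [if_pos h6, if_pos (e5.2 h6)]
      · rw [if_neg h6, if_neg fun h7 => h6 (e5.1 h7), mul_zero]

end H71.S3
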