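import Mathlib.GroupTheory.Nilpotent
import Mathlib.GroupTheory.Commutator.Finite
import Mathlib.Algebra.BigOperators.Field
import Mathlib.Tactic

/-!
# H1-S3-NIN: exact uniformity of products of commutators (Lemma 5 of chapter B, MP_b39724_nt, all classes, stage 3, think 1688, 1707)

`Nd N j`: the descending chain `Nd N 0 = N`, `Nd N (j+1) = ⁅Nd N j, ⊤⁆`.
* `Mv N s R`: moving one coordinate of `R : (V → S) → S` by `μ ∈ Nd N j` multiplies `R` by `⁅s w, μ⁆` modulo `Nd N (j+2)`.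
* `unif`, `unif_sum`: exact uniformity: if the `s w` generate `S` modulo the commutator subgroup and `Nd N J = ⊥`, then the number of the
  `ν : V → N` with `R ν = r` is `|N| ^ |V| / |⁅N, ⊤⁆|` for `r` in the coset of `R 1`, and `0` otherwise.
* `Rl`, `rl_mv`, `nin_card`, `nin_sum`: the product over a list, in any order, of the commutators `⁅s i, x i * ν i⁆` (`i ∈ PP`) and of fixed elements
  (the other `i`) satisfies `Mv`.
* `gam_comm_le`: `⁅γ_m(S), N⁆ ≤ ⁅N ⊓ γ_m(S), S⁆`.
-/

set_option autoImplicit false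

open scoped Classical commutatorElement

noncomputable section

namespace H1.S3.Nin

attribute [local instance 50] Fintype.ofFinite

variable {S : Type} [Group S]

/-- the descending chain -/
def Nd (N : Subgroup S) : ℕ → Subgroup S
  | 0 => N
  | j + 1 => ⁅Nd N j, ⊤⁆

theorem nd_succ (N : Subgroup S) (j : ℕ) : Nd N (j + 1) = ⁅Nd N j, ⊤⁆ := rfl

instance nd_normal (N : Subgroup S) [N.Normal] : ∀ j, (Nd N j).Normal
  | 0 => by
    unfold Nd
    infer_instance
  | j + 1 => by
    haveI := nd_normal N j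
    unfold Nd
    infer_instance

theorem nd_le (N : Subgroup S) [N.Normal] (j : ℕ) : Nd N (j + 1) ≤ Nd N j := by
  haveI := nd_normal N j
  rw [nd_succ]
  exact Subgroup.commutator_le_left _ _

theorem nd_le_zero (N : Subgroup S) [N.Normal] (j : ℕ) : Nd N j ≤ N := by
  induction j with
  | zero => exact le_refl _
  | succ j ih => exact (nd_le N j).trans ih

theorem nd_nd (N : Subgroup S) (i j : ℕ) : Nd (Nd N i) j = Nd N (i + j) := by
  induction j with
  | zero => rfl
  | succ j ih =>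
    show ⁅Nd (Nd N i) j, ⊤⁆ = ⁅Nd N (i + j), ⊤⁆
    rw [ih]

/-- `a ∈ Nd N j` and `b` give a commutator in `Nd N (j+1)` -/
theorem comm_mem {N : Subgroup S} {j : ℕ} {a : S} (ha : a ∈ Nd N j) (b : S) :
    ⁅a, b⁆ ∈ Nd N (j + 1) :=
  Subgroup.commutator_mem_commutator ha (Subgroup.mem_top b)

theorem comm_mem' {N : Subgroup S} {j : ℕ} {a : S} (ha : a ∈ Nd N j) (b : S) :
    ⁅b, a⁆ ∈ Nd N (j + 1) := by
  rw [← commutatorElement_inv]
  exact inv_mem (comm_mem ha b)

/-! ### generation -/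

/-- if the `s w` generate `S` modulo commutators, the `⁅s w, μ⁆` generate `Nd N (j+1)` modulo `Nd N (j+2)` -/
theorem gen {N : Subgroup S} [N.Normal] {V : Type} {s : V → S}
    (hs : Subgroup.closure (Set.range s) ⊔ commutator S = ⊤) (j : ℕ) (H : Subgroup S)
    (h1 : ∀ w, ∀ μ ∈ Nd N j, ⁅s w, μ⁆ ∈ H) (h2 : Nd N (j + 2) ≤ H) : Nd N (j + 1) ≤ H := by
  haveI := nd_normal N j
  have hmul : ∀ a b μ : S, ⁅a * b, μ⁆ = ⁅a, ⁅b, μ⁆⁆ * ⁅b, μ⁆ * ⁅a, μ⁆ := fun a b μ => by
    simp only [commutatorElement_def]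
    group
  have hinv : ∀ a μ : S, ⁅a⁻¹, μ⁆ = ⁅a⁻¹, ⁅a, μ⁆⁻¹⁆ * ⁅a, μ⁆⁻¹ := fun a μ => by
    simp only [commutatorElement_def]
    group
  have hbr : ∀ a b μ : S, μ ∈ Nd N j → ⁅a, ⁅b, μ⁆⁆ ∈ H := fun a b μ hμ =>
    h2 (comm_mem' (comm_mem' hμ b) a)
  set A : Subgroup S :=
    { carrier := {a | ∀ μ ∈ Nd N j, ⁅a, μ⁆ ∈ H}
      one_mem' := fun μ _ => by
        rw [commutatorElement_one_left]
        exact one_mem _
      mul_mem' := fun {a b} ha hb μ hμ => by
        rw [hmul]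
        exact mul_mem (mul_mem (hbr a b μ hμ) (hb μ hμ)) (ha μ hμ)
      inv_mem' := fun {a} ha μ hμ => by
        rw [hinv]
        refine mul_mem ?_ (inv_mem (ha μ hμ))
        exact h2 (comm_mem' (inv_mem (comm_mem' hμ a)) a⁻¹) } with hA
  have hcl : Subgroup.closure (Set.range s) ≤ A := by
    rw [Subgroup.closure_le]
    rintro _ ⟨w, rfl⟩ μ hμ
    exact h1 w μ hμ
  have hcm : commutator S ≤ A := by
    rw [commutator_def, Subgroup.commutator_le]
    intro a _ b _ μ hμ
    -- three subgroups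
    have h3 : ⁅⁅(⊤ : Subgroup S), (⊤ : Subgroup S)⁆, Nd N j⁆ ≤ Nd N (j + 2) := by
      have hq : ∀ X Y Z : Subgroup S, ⁅⁅X, Y⁆, Z⁆ ≤ Nd N (j + 2) ↔
          ⁅⁅X.map (QuotientGroup.mk' (Nd N (j + 2))), Y.map (QuotientGroup.mk' (Nd N (j + 2)))⁆,
            Z.map (QuotientGroup.mk' (Nd N (j + 2)))⁆ = ⊥ := by
        intro X Y Z
        rw [← Subgroup.map_commutator, ← Subgroup.map_commutator, Subgroup.map_eq_bot_iff,
          QuotientGroup.ker_mk']
      rw [hq]
      refine Subgroup.commutator_commutator_eq_bot_of_rotate ?_ ?_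
      · rw [← hq]
        rw [Subgroup.commutator_comm ⊤ (Nd N j)]
        exact le_refl _
      · rw [← hq]
        exact le_refl _
    refine h2 (h3 ?_)
    exact Subgroup.commutator_mem_commutator
      (Subgroup.commutator_mem_commutator (Subgroup.mem_top a) (Subgroup.mem_top b)) hμ
  have htop : A = ⊤ := by
    rw [eq_top_iff, ← hs]
    exact sup_le hcl hcm
  rw [nd_succ, Subgroup.commutator_le]
  intro μ hμ a _
  have ha : a ∈ A := by
    rw [htop]
    exact Subgroup.mem_top a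
  rw [← commutatorElement_inv]
  exact inv_mem (ha μ hμ)

/-! ### the abstract form -/

variable {V : Type}

/-- moving one coordinate -/
def Mv (N : Subgroup S) (s : V → S) (R : (V → S) → S) : Prop :=
  ∀ (j : ℕ) (ν : V → S) (w : V) (μ : S), μ ∈ Nd N j →
    ∃ n ∈ Nd N (j + 2), R (Function.update ν w (ν w * μ)) = R ν * ⁅s w, μ⁆ * n

theorem Mv.coset {N : Subgroup S} [N.Normal] {s : V → S} {R : (V → S) → S} (h : Mv N s R)
    (j : ℕ) (ν : V → S) (w : V) (μ : S) (hμ : μ ∈ Nd N j) :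
    (R ν)⁻¹ * R (Function.update ν w (ν w * μ)) ∈ Nd N (j + 1) := by
  obtain ⟨n, hn, e⟩ := h j ν w μ hμ
  rw [e, mul_assoc, inv_mul_cancel_left]
  exact mul_mem (comm_mem' hμ _) (nd_le N (j + 1) hn)

theorem Mv.coset_fin [Fintype V] {N : Subgroup S} [N.Normal] {s : V → S} {R : (V → S) → S}
    (h : Mv N s R) (j : ℕ) (ν : V → S) (μ : V → S) (hμ : ∀ v, μ v ∈ Nd N j) :
    (R ν)⁻¹ * R (fun v => ν v * μ v) ∈ Nd N (j + 1) := by
  have key : ∀ F : Finset V,
      (R ν)⁻¹ * R (fun v => if v ∈ F then ν v * μ v else ν v) ∈ Nd N (j + 1) := by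
    intro F
    induction F using Finset.induction_on with
    | empty =>
      simp only [Finset.notMem_empty, if_false]
      rw [inv_mul_cancel]
      exact one_mem _
    | insert w F hw ih =>
      have e : (fun v => if v ∈ insert w F then ν v * μ v else ν v) =
          Function.update (fun v => if v ∈ F then ν v * μ v else ν v) w
            ((fun v => if v ∈ F then ν v * μ v else ν v) w * μ w) := by
        funext v
        by_cases hv : v = w
        · subst hv
          rw [Function.update_self]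
          simp [hw]
        · rw [Function.update_of_ne hv]
          simp [hv]
      rw [e]
      have h2 := h.coset j (fun v => if v ∈ F then ν v * μ v else ν v) w (μ w) (hμ w)
      have := mul_mem ih h2
      rwa [mul_assoc, mul_inv_cancel_left] at this
  have := key Finset.univ
  simpa using this

/-- the number of the `μ` with values in `Nd N j` and `R (ν μ) = r` -/
def cnt [Fintype V] [Finite S] (N : Subgroup S) (R : (V → S) → S) (j : ℕ) (ν : V → S) (r : S) : ℕ :=
  ∑ μ : V → Nd N j, if R (fun v => ν v * (μ v : S)) = r then 1 else 0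

section unif

variable [Fintype V] [Finite S] {N : Subgroup S} [N.Normal] {s : V → S} {R : (V → S) → S}

theorem cnt_supp (h : Mv N s R) {j : ℕ} {ν : V → S} {r : S} (hr : (R ν)⁻¹ * r ∉ Nd N (j + 1)) :
    cnt N R j ν r = 0 := by
  unfold cnt
  refine Finset.sum_eq_zero fun μ _ => ?_
  rw [if_neg]
  rintro rfl
  exact hr (h.coset_fin j ν (fun v => (μ v : S)) (fun v => (μ v).2))

/-- invariance -/
def Inv (N : Subgroup S) (R : (V → S) → S) (j : ℕ) : Prop :=
  ∀ (ν : V → S) (r n : S), n ∈ Nd N (j + 1) → cnt N R j ν (r * n) = cnt N R j ν r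

theorem cnt_total (h : Mv N s R) (j : ℕ) (ν : V → S) :
    ∑ n : Nd N (j + 1), cnt N R j ν (R ν * (n : S)) = Nat.card (Nd N j) ^ Fintype.card V := by
  unfold cnt
  rw [Finset.sum_comm]
  have h1 : ∀ μ : V → Nd N j, (∑ n : Nd N (j + 1),
      if R (fun v => ν v * (μ v : S)) = R ν * (n : S) then (1 : ℕ) else 0) = 1 := by
    intro μ
    have hm := h.coset_fin j ν (fun v => (μ v : S)) (fun v => (μ v).2)
    rw [Finset.sum_eq_single (⟨_, hm⟩ : Nd N (j + 1))]
    · rw [if_pos]
      show _ = R ν * ((R ν)⁻¹ * _)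
      rw [mul_inv_cancel_left]
    · intro n _ hn
      rw [if_neg]
      intro e
      apply hn
      apply Subtype.ext
      show (n : S) = (R ν)⁻¹ * _
      rw [e, inv_mul_cancel_left]
    · intro hn
      exact absurd (Finset.mem_univ _) hn
  have e2 : (∑ μ : V → Nd N j, ∑ n : Nd N (j + 1),
      if R (fun v => ν v * (μ v : S)) = R ν * (n : S) then (1 : ℕ) else 0) =
      ∑ _μ : V → Nd N j, 1 := Finset.sum_congr rfl fun μ _ => h1 μ
  refine e2.trans ?_
  · rw [Finset.sum_const, Finset.card_univ, Fintype.card_fun, smul_eq_mul, mul_one,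
      Nat.card_eq_fintype_card]

/-- the value of the counting function from the invariance -/
theorem cnt_val (h : Mv N s R) {j : ℕ} (hi : Inv N R j) (ν : V → S) (r : S) :
    cnt N R j ν r * Nat.card (Nd N (j + 1)) =
      if (R ν)⁻¹ * r ∈ Nd N (j + 1) then Nat.card (Nd N j) ^ Fintype.card V else 0 := by
  by_cases hr : (R ν)⁻¹ * r ∈ Nd N (j + 1)
  · rw [if_pos hr, ← cnt_total h j ν]
    have h1 : ∀ n : Nd N (j + 1), cnt N R j ν (R ν * (n : S)) = cnt N R j ν r := by
      intro n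
      rw [hi ν (R ν) n n.2, ← hi ν (R ν) _ hr, mul_inv_cancel_left]
    rw [Finset.sum_congr rfl fun n _ => h1 n, Finset.sum_const, Finset.card_univ, smul_eq_mul,
      Nat.card_eq_fintype_card, mul_comm]
  · rw [if_neg hr, cnt_supp h hr, zero_mul]

omit [N.Normal] in
theorem inv_bot {j : ℕ} (hj : Nd N (j + 1) = ⊥) : Inv N R j := by
  intro ν r n hn
  rw [hj, Subgroup.mem_bot] at hn
  rw [hn, mul_one]

/-- `|N_(j+1)|^V` times the sum at level `j` -/
theorem cnt_split (j : ℕ) (ν : V → S) (r : S) :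
    (Nat.card (Nd N (j + 1)) ^ Fintype.card V) * cnt N R j ν r =
      ∑ μ : V → Nd N j, cnt N R (j + 1) (fun v => ν v * (μ v : S)) r := by
  have e1 : (∑ μ : V → Nd N j, cnt N R (j + 1) (fun v => ν v * (μ v : S)) r) =
      ∑ κ : V → Nd N (j + 1), ∑ μ : V → Nd N j,
        if R (fun v => ν v * (μ v : S) * (κ v : S)) = r then (1 : ℕ) else 0 := by
    rw [Finset.sum_comm]
    rfl
  have e2 : ∀ κ : V → Nd N (j + 1), (∑ μ : V → Nd N j,
        if R (fun v => ν v * (μ v : S) * (κ v : S)) = r then (1 : ℕ) else 0) =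
      cnt N R j ν r := by
    intro κ
    unfold cnt
    refine Fintype.sum_equiv
      (Equiv.piCongrRight fun v => Equiv.mulRight (⟨(κ v : S), nd_le N j (κ v).2⟩ : Nd N j)) _ _ ?_
    intro μ
    have : (fun v => ν v * (μ v : S) * (κ v : S)) = fun v => ν v *
        ((Equiv.piCongrRight (fun v => Equiv.mulRight
          (⟨(κ v : S), nd_le N j (κ v).2⟩ : Nd N j)) μ v : Nd N j) : S) := by
      funext v
      rw [mul_assoc]
      rfl
    rw [this]
  rw [e1, Finset.sum_congr rfl fun κ _ => e2 κ, Finset.sum_const, Finset.card_univ,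
    Fintype.card_fun, smul_eq_mul, Nat.card_eq_fintype_card]

theorem inv_step (h : Mv N s R) (hs : Subgroup.closure (Set.range s) ⊔ commutator S = ⊤) (j : ℕ)
    (hi : Inv N R (j + 1)) : Inv N R j := by
  -- the group of the invariances
  set A : Subgroup S :=
    { carrier := {n | ∀ (ν : V → S) (r : S), cnt N R j ν (r * n) = cnt N R j ν r}
      one_mem' := fun ν r => by rw [mul_one]
      mul_mem' := fun {a b} ha hb ν r => by rw [← mul_assoc, hb ν (r * a), ha ν r]
      inv_mem' := fun {a} ha ν r => by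
        have := ha ν (r * a⁻¹)
        rw [inv_mul_cancel_right] at this
        exact this.symm } with hA
  have hpos : 0 < Nat.card (Nd N (j + 1)) := Nat.card_pos
  have hpos2 : 0 < Nat.card (Nd N (j + 2)) := Nat.card_pos
  have h2 : Nd N (j + 2) ≤ A := by
    intro n hn ν r
    have e := cnt_split (N := N) (R := R) j ν (r * n)
    have e' := cnt_split (N := N) (R := R) j ν r
    have : Nat.card (Nd N (j + 1)) ^ Fintype.card V * cnt N R j ν (r * n) =
        Nat.card (Nd N (j + 1)) ^ Fintype.card V * cnt N R j ν r := by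
      rw [e, e']
      exact Finset.sum_congr rfl fun μ _ => hi _ r n hn
    exact Nat.eq_of_mul_eq_mul_left (pow_pos hpos _) this
  have h1 : ∀ w, ∀ μ ∈ Nd N j, ⁅s w, μ⁆ ∈ A := by
    intro w μ hμ ν r
    -- the value at level j+1 is invariant under the simultaneous move
    have hmv : ∀ ν' : V → S, cnt N R (j + 1) (Function.update ν' w (ν' w * μ)) (r * ⁅s w, μ⁆) =
        cnt N R (j + 1) ν' r := by
      intro ν'
      have c1 := cnt_val h hi (Function.update ν' w (ν' w * μ)) (r * ⁅s w, μ⁆)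
      have c2 := cnt_val h hi ν' r
      obtain ⟨n, hn, e⟩ := h j ν' w μ hμ
      have hiff : ((R (Function.update ν' w (ν' w * μ)))⁻¹ * (r * ⁅s w, μ⁆) ∈ Nd N (j + 1 + 1)) ↔
          ((R ν')⁻¹ * r ∈ Nd N (j + 1 + 1)) := by
        haveI := nd_normal N (j + 1 + 1)
        rw [e]
        have e4 : (R ν' * ⁅s w, μ⁆ * n)⁻¹ * (r * ⁅s w, μ⁆) =
            n⁻¹ * (⁅s w, μ⁆⁻¹ * ((R ν')⁻¹ * r) * ⁅s w, μ⁆) := by group
        rw [e4]
        constructor
        · intro hh
          have h5 : ⁅s w, μ⁆⁻¹ * ((R ν')⁻¹ * r) * ⁅s w, μ⁆ ∈ Nd N (j + 1 + 1) := by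
            have := mul_mem hn hh
            rwa [mul_inv_cancel_left] at this
          have h6 := (nd_normal N (j + 1 + 1)).conj_mem _ h5 ⁅s w, μ⁆
          have e5 : ⁅s w, μ⁆ * (⁅s w, μ⁆⁻¹ * ((R ν')⁻¹ * r) * ⁅s w, μ⁆) * ⁅s w, μ⁆⁻¹ =
              (R ν')⁻¹ * r := by group
          rwa [e5] at h6
        · intro hh
          refine mul_mem (inv_mem hn) ?_
          have h6 := (nd_normal N (j + 1 + 1)).conj_mem _ hh ⁅s w, μ⁆⁻¹
          rwa [inv_inv] at h6
      have : cnt N R (j + 1) (Function.update ν' w (ν' w * μ)) (r * ⁅s w, μ⁆) *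
          Nat.card (Nd N (j + 1 + 1)) = cnt N R (j + 1) ν' r * Nat.card (Nd N (j + 1 + 1)) := by
        rw [c1, c2]
        by_cases hh : ((R ν')⁻¹ * r ∈ Nd N (j + 1 + 1))
        · rw [if_pos hh, if_pos (hiff.2 hh)]
        · rw [if_neg hh, if_neg fun x => hh (hiff.1 x)]
      exact Nat.eq_of_mul_eq_mul_right hpos2 this
    have e := cnt_split (N := N) (R := R) j ν (r * ⁅s w, μ⁆)
    have e' := cnt_split (N := N) (R := R) j ν r
    have : Nat.card (Nd N (j + 1)) ^ Fintype.card V * cnt N R j ν (r * ⁅s w, μ⁆) =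
        Nat.card (Nd N (j + 1)) ^ Fintype.card V * cnt N R j ν r := by
      rw [e, e']
      symm
      refine Fintype.sum_equiv (Equiv.piCongrRight fun v =>
        if v = w then Equiv.mulRight (⟨μ, hμ⟩ : Nd N j) else Equiv.refl _) _ _ ?_
      intro κ
      rw [← hmv (fun v => ν v * (κ v : S))]
      congr 1
      funext v
      by_cases hv : v = w
      · subst hv
        rw [Function.update_self]
        simp [mul_assoc]
      · rw [Function.update_of_ne hv]
        simp [hv]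
    exact Nat.eq_of_mul_eq_mul_left (pow_pos hpos _) this
  intro ν r n hn
  exact gen hs j A h1 h2 hn ν r

theorem inv_zero (h : Mv N s R) (hs : Subgroup.closure (Set.range s) ⊔ commutator S = ⊤) {J : ℕ}
    (hJ : Nd N J = ⊥) : Inv N R 0 := by
  have key : ∀ k, k ≤ J → Inv N R (J - k) := by
    intro k
    induction k with
    | zero =>
      intro _
      refine inv_bot ?_
      rw [Nat.sub_zero, eq_bot_iff, ← hJ]
      exact nd_le N J
    | succ k ih =>
      intro hk
      refine inv_step h hs _ ?_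
      have : J - (k + 1) + 1 = J - k := by omega
      rw [this]
      exact ih (by omega)
  have := key J le_rfl
  rwa [Nat.sub_self] at this

/-- EXACT UNIFORMITY (counting form) -/
theorem unif (h : Mv N s R) (hs : Subgroup.closure (Set.range s) ⊔ commutator S = ⊤) {J : ℕ}
    (hJ : Nd N J = ⊥) (r : S) :
    Nat.card {ν : V → N // R (fun v => (ν v : S)) = r} * Nat.card (⁅N, ⊤⁆ : Subgroup S) =
      if (R fun _ => 1)⁻¹ * r ∈ (⁅N, ⊤⁆ : Subgroup S) then Nat.card N ^ Fintype.card V else 0 := by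
  have e := cnt_val h (inv_zero h hs hJ) (fun _ => 1) r
  have e2 : cnt N R 0 (fun _ => 1) r = Nat.card {ν : V → N // R (fun v => (ν v : S)) = r} := by
    unfold cnt
    rw [Nat.card_eq_fintype_card, Fintype.card_subtype, Finset.card_filter]
    simp only [one_mul]
    rfl
  rw [e2] at e
  exact e

/-- EXACT UNIFORMITY (sum form; the `Fintype` instances are `Fintype.ofFinite`) -/
theorem unif_sum (h : Mv N s R) (hs : Subgroup.closure (Set.range s) ⊔ commutator S = ⊤) {J : ℕ}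
    (hJ : Nd N J = ⊥) (F : S → ℂ) :
    (Nat.card (⁅N, ⊤⁆ : Subgroup S) : ℂ) * ∑ ν : V → N, F (R fun v => (ν v : S)) =
      (Nat.card N : ℂ) ^ Fintype.card V *
        ∑ n : (⁅N, ⊤⁆ : Subgroup S), F ((R fun _ => 1) * (n : S)) := by
  have e1 : (∑ ν : V → N, F (R fun v => (ν v : S))) =
      ∑ r : S, (Nat.card {ν : V → N // R (fun v => (ν v : S)) = r} : ℂ) * F r := by
    have : ∀ r : S, (Nat.card {ν : V → N // R (fun v => (ν v : S)) = r} : ℂ) * F r =
        ∑ ν : V → N, if R (fun v => (ν v : S)) = r then F r else 0 := by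
      intro r
      rw [Nat.card_eq_fintype_card, Fintype.card_subtype, ← Finset.sum_filter, Finset.sum_const,
        nsmul_eq_mul]
    rw [Finset.sum_congr rfl fun r _ => this r, Finset.sum_comm]
    refine Finset.sum_congr rfl fun ν _ => ?_
    rw [Finset.sum_ite_eq Finset.univ (R fun v => (ν v : S)) F, if_pos (Finset.mem_univ _)]
  have e2 : ∀ r : S, (Nat.card (⁅N, ⊤⁆ : Subgroup S) : ℂ) *
      (Nat.card {ν : V → N // R (fun v => (ν v : S)) = r} : ℂ) =
      if (R fun _ => 1)⁻¹ * r ∈ (⁅N, ⊤⁆ : Subgroup S) then (Nat.card N : ℂ) ^ Fintype.card V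
        else 0 := by
    intro r
    have := unif h hs hJ r
    rw [mul_comm, ← Nat.cast_mul, this]
    split_ifs
    · push_cast
      rfl
    · push_cast
      rfl
  rw [e1, Finset.mul_sum]
  have e3 : ∀ r : S, (Nat.card (⁅N, ⊤⁆ : Subgroup S) : ℂ) *
      ((Nat.card {ν : V → N // R (fun v => (ν v : S)) = r} : ℂ) * F r) =
      if (R fun _ => 1)⁻¹ * r ∈ (⁅N, ⊤⁆ : Subgroup S) then
        (Nat.card N : ℂ) ^ Fintype.card V * F r else 0 := by
    intro r
    rw [← mul_assoc, e2 r]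
    split_ifs
    · rfl
    · rw [zero_mul]
  rw [Finset.sum_congr rfl fun r _ => e3 r, ← Finset.sum_filter, Finset.mul_sum]
  symm
  refine Finset.sum_bij (fun n _ => (R fun _ => 1) * (n : S)) ?_ ?_ ?_ ?_
  · intro n _
    rw [Finset.mem_filter]
    refine ⟨Finset.mem_univ _, ?_⟩
    rw [inv_mul_cancel_left]
    exact n.2
  · intro a _ b _ hab
    exact Subtype.ext (mul_left_cancel hab)
  · intro r hr
    refine ⟨⟨_, (Finset.mem_filter.1 hr).2⟩, Finset.mem_univ _, ?_⟩
    show (R fun _ => 1) * ((R fun _ => 1)⁻¹ * r) = r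
    rw [mul_inv_cancel_left]
  · intro n _
    rfl

end unif

/-! ### products over a list -/

/-- the product over a list of the commutators (`i ∈ PP`) and of fixed elements -/
def Rl {ι : Type} (l : List ι) (PP : Finset ι) (s x c : ι → S) (ν : PP → S) : S :=
  (l.map fun i => if h : i ∈ PP then ⁅s i, x i * ν ⟨i, h⟩⁆ else c i).prod

theorem rl_mv {ι : Type} {l : List ι} (hl : l.Nodup) {PP : Finset ι} (hP : ∀ i ∈ PP, i ∈ l)
    (s x c : ι → S) (N : Subgroup S) [N.Normal] :
    Mv N (fun v : PP => s v) (Rl l PP s x c) := by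
  intro j ν w μ hμ
  obtain ⟨l₁, l₂, hl12⟩ := List.append_of_mem (hP w w.2)
  have hnd := hl
  rw [hl12, List.nodup_append] at hnd
  obtain ⟨-, h2, h3⟩ := hnd
  rw [List.nodup_cons] at h2
  have hw1 : ∀ i ∈ l₁, i ≠ (w : ι) := fun i hi e => h3 i hi w (by simp) e
  have hw2 : ∀ i ∈ l₂, i ≠ (w : ι) := fun i hi e => h2.1 (e ▸ hi)
  obtain ⟨ν', hν'⟩ : ∃ ν' : PP → S, ν' = @Function.update PP (fun _ => S)
      (fun a b => Classical.propDecidable (a = b)) ν w (ν w * μ) := ⟨_, rfl⟩
  rw [← hν']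
  have hagree : ∀ i : ι, i ≠ (w : ι) → (if h : i ∈ PP then ⁅s i, x i * ν' ⟨i, h⟩⁆ else c i) =
      (if h : i ∈ PP then ⁅s i, x i * ν ⟨i, h⟩⁆ else c i) := by
    intro i hi
    by_cases h : i ∈ PP
    · have hne : (⟨i, h⟩ : PP) ≠ w := fun e => hi (congrArg Subtype.val e)
      rw [dif_pos h, dif_pos h, hν']
      unfold Function.update
      rw [dif_neg hne]
    · rw [dif_neg h, dif_neg h]
  have hA : (l₁.map fun i => if h : i ∈ PP then ⁅s i, x i * ν' ⟨i, h⟩⁆ else c i) =
      (l₁.map fun i => if h : i ∈ PP then ⁅s i, x i * ν ⟨i, h⟩⁆ else c i) :=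
    List.map_congr_left fun i hi => hagree i (hw1 i hi)
  have hB : (l₂.map fun i => if h : i ∈ PP then ⁅s i, x i * ν' ⟨i, h⟩⁆ else c i) =
      (l₂.map fun i => if h : i ∈ PP then ⁅s i, x i * ν ⟨i, h⟩⁆ else c i) :=
    List.map_congr_left fun i hi => hagree i (hw2 i hi)
  have eR : ∀ κ : PP → S, Rl l PP s x c κ =
      (l₁.map fun i => if h : i ∈ PP then ⁅s i, x i * κ ⟨i, h⟩⁆ else c i).prod *
        (⁅s w, x w * κ w⁆ *
          (l₂.map fun i => if h : i ∈ PP then ⁅s i, x i * κ ⟨i, h⟩⁆ else c i).prod) := by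
    intro κ
    unfold Rl
    rw [hl12, List.map_append, List.prod_append, List.map_cons, List.prod_cons, dif_pos w.2]
  set B : S := (l₂.map fun i => if h : i ∈ PP then ⁅s i, x i * ν ⟨i, h⟩⁆ else c i).prod with hBd
  set z : S := ⁅s w, μ⁆ with hz
  have hzm : z ∈ Nd N (j + 1) := comm_mem' hμ _
  set g : S := B⁻¹ * (x w * ν w) with hg
  refine ⟨⁅z⁻¹, g⁆, comm_mem (inv_mem hzm) g, ?_⟩
  rw [eR ν', eR ν, hA, hB]
  have e1 : ν' w = ν w * μ := by
    rw [hν']
    unfold Function.update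
    rw [dif_pos rfl]
  rw [e1]
  have e2 : ⁅s w, x w * (ν w * μ)⁆ = ⁅s w, x w * ν w⁆ * ((x w * ν w) * z * (x w * ν w)⁻¹) := by
    rw [hz]
    simp only [commutatorElement_def]
    group
  rw [e2, ← hBd, hg]
  simp only [commutatorElement_def]
  group

/-- LEMMA 5 (i), counting form -/
theorem nin_card {ι : Type} [Finite S] {l : List ι} (hl : l.Nodup) {PP : Finset ι}
    (hP : ∀ i ∈ PP, i ∈ l) (s x c : ι → S) (N : Subgroup S) [N.Normal]
    (hs : Subgroup.closure (s '' PP) ⊔ commutator S = ⊤) {J : ℕ} (hJ : Nd N J = ⊥) (r : S) :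
    Nat.card {ν : PP → N // Rl l PP s x c (fun v => (ν v : S)) = r} *
        Nat.card (⁅N, ⊤⁆ : Subgroup S) =
      if (Rl l PP s x c fun _ => 1)⁻¹ * r ∈ (⁅N, ⊤⁆ : Subgroup S) then Nat.card N ^ PP.card
        else 0 := by
  have h1 : Subgroup.closure (Set.range fun v : PP => s v) ⊔ commutator S = ⊤ := by
    rw [← hs]
    congr 2
    ext y
    simp
  have := unif (rl_mv hl hP s x c N) h1 hJ r
  rwa [Fintype.card_coe] at this

/-- LEMMA 5 (i), sum form -/
theorem nin_sum {ι : Type} [Finite S] {l : List ι} (hl : l.Nodup) {PP : Finset ι}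
    (hP : ∀ i ∈ PP, i ∈ l) (s x c : ι → S) (N : Subgroup S) [N.Normal]
    (hs : Subgroup.closure (s '' PP) ⊔ commutator S = ⊤) {J : ℕ} (hJ : Nd N J = ⊥) (F : S → ℂ) :
    (Nat.card (⁅N, ⊤⁆ : Subgroup S) : ℂ) *
        ∑ ν : PP → N, F (Rl l PP s x c fun v => (ν v : S)) =
      (Nat.card N : ℂ) ^ PP.card *
        ∑ n : (⁅N, ⊤⁆ : Subgroup S), F ((Rl l PP s x c fun _ => 1) * (n : S)) := by
  have h1 : Subgroup.closure (Set.range fun v : PP => s v) ⊔ commutator S = ⊤ := by
    rw [← hs]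
    congr 2
    ext y
    simp
  have := unif_sum (rl_mv hl hP s x c N) h1 hJ F
  rw [Fintype.card_coe] at this
  convert this using 2
  exact Finset.sum_congr (by ext; simp) fun _ _ => rfl

/-! ### (ii) -/

/-- three subgroups -/
theorem three_le (A B C N : Subgroup S) [N.Normal] (h1 : ⁅⁅B, C⁆, A⁆ ≤ N) (h2 : ⁅⁅C, A⁆, B⁆ ≤ N) :
    ⁅⁅A, B⁆, C⁆ ≤ N := by
  have hq : ∀ X Y Z : Subgroup S, ⁅⁅X, Y⁆, Z⁆ ≤ N ↔
      ⁅⁅X.map (QuotientGroup.mk' N), Y.map (QuotientGroup.mk' N)⁆,
        Z.map (QuotientGroup.mk' N)⁆ = ⊥ := by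
    intro X Y Z
    rw [← Subgroup.map_commutator, ← Subgroup.map_commutator, Subgroup.map_eq_bot_iff,
      QuotientGroup.ker_mk']
  rw [hq] at h1 h2 ⊢
  exact Subgroup.commutator_commutator_eq_bot_of_rotate h1 h2

/-- `⁅γ_(m+1)(S), N⁆ ≤ N_(m+1)` (`lowerCentralSeries S m = γ_(m+1)(S)`) -/
theorem lcs_comm_nd (m : ℕ) : ∀ (N : Subgroup S) [N.Normal],
    ⁅(⊤ : Subgroup S).lowerCentralSeries m, N⁆ ≤ Nd N (m + 1) := by
  induction m with
  | zero =>
    intro N _
    rw [Subgroup.lowerCentralSeries_zero, Subgroup.commutator_comm]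
    exact le_refl _
  | succ m ih =>
    intro N _
    have e : (⊤ : Subgroup S).lowerCentralSeries (m + 1) = ⁅(⊤ : Subgroup S).lowerCentralSeries m, ⊤⁆ := rfl
    rw [e]
    refine three_le _ _ _ _ ?_ ?_
    · -- ⁅⁅⊤, N⁆, γ⁆
      rw [Subgroup.commutator_comm ⊤ N, Subgroup.commutator_comm _ ((⊤ : Subgroup S).lowerCentralSeries m)]
      have h1 := ih ⁅N, ⊤⁆
      have e2 : Nd ⁅N, (⊤ : Subgroup S)⁆ (m + 1) = Nd N (m + 1 + 1) := by
        have := nd_nd N 1 (m + 1)
        rw [show 1 + (m + 1) = m + 1 + 1 by omega] at this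
        exact this
      rwa [e2] at h1
    · -- ⁅⁅N, γ⁆, ⊤⁆
      rw [Subgroup.commutator_comm N]
      exact Subgroup.commutator_mono (ih N) le_rfl

theorem nd_le_lcs (N : Subgroup S) (m : ℕ) : Nd N m ≤ (⊤ : Subgroup S).lowerCentralSeries m := by
  induction m with
  | zero =>
    rw [Subgroup.lowerCentralSeries_zero]
    exact le_top
  | succ m ih => exact Subgroup.commutator_mono ih le_rfl

/-- LEMMA 5 (ii): `⁅γ_m(S), N⁆ ≤ ⁅N ⊓ γ_m(S), S⁆` -/
theorem gam_comm_le (N : Subgroup S) [N.Normal] (m : ℕ) :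
    ⁅(⊤ : Subgroup S).lowerCentralSeries m, N⁆ ≤ ⁅N ⊓ (⊤ : Subgroup S).lowerCentralSeries m, ⊤⁆ := by
  refine (lcs_comm_nd m N).trans ?_
  rw [nd_succ]
  exact Subgroup.commutator_mono (le_inf (nd_le_zero N m) (nd_le_lcs N m)) le_rfl

end H1.S3.Nin
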