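import Pool.Agent.H71.S3.Zwd

/-!
# [H1 S3 FBS] sums over functions on a disjoint union, blocks with one letter (MP_b39724_nt, stage 3, chapter B)

* `fib_sum`: the sum over the functions on `Z ⊔ O` of a product of functions of the coordinates in `Z` and a function of the restriction to `O`. `spl_sum`, `spl_prod`: sums and products over `Z ⊔ O`.
* `zeta_sgl`, `zet'_sgl`: `ζ`, `ζ'` of a block with one letter for a homomorphism to `Sd P M`.
-/

set_option autoImplicit false

open scoped commutatorElement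
open scoped Classical

noncomputable section

namespace H1.S3.Fbs

section gen

variable {J α : Type} {U Z O : Finset J}

/-- the disjoint union -/
theorem uni_bij (hU : ∀ j, j ∈ U ↔ j ∈ Z ∨ j ∈ O) (hd : Disjoint Z O) (iZ : Z → U) (iO : O → U)
    (hiZ : ∀ j, (iZ j : J) = j) (hiO : ∀ j, (iO j : J) = j) :
    Function.Bijective (Sum.elim iZ iO) := by
  constructor
  · rintro (a | a) (b | b) h
    · refine congrArg Sum.inl (Subtype.ext ?_)
      have h1 := congrArg Subtype.val h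
      simp only [Sum.elim_inl] at h1
      rwa [hiZ, hiZ] at h1
    · exfalso
      have h1 := congrArg Subtype.val h
      simp only [Sum.elim_inl, Sum.elim_inr] at h1
      rw [hiZ, hiO] at h1
      exact Finset.disjoint_left.1 hd a.2 (h1 ▸ b.2)
    · exfalso
      have h1 := congrArg Subtype.val h
      simp only [Sum.elim_inl, Sum.elim_inr] at h1
      rw [hiZ, hiO] at h1
      exact Finset.disjoint_left.1 hd b.2 (h1 ▸ a.2)
    · refine congrArg Sum.inr (Subtype.ext ?_)
      have h1 := congrArg Subtype.val h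
      simp only [Sum.elim_inr] at h1
      rwa [hiO, hiO] at h1
  · intro j
    rcases (hU j).1 j.2 with h | h
    · exact ⟨Sum.inl ⟨j, h⟩, Subtype.ext (hiZ _)⟩
    · exact ⟨Sum.inr ⟨j, h⟩, Subtype.ext (hiO _)⟩

theorem spl_sum {R : Type} [AddCommMonoid R] (hU : ∀ j, j ∈ U ↔ j ∈ Z ∨ j ∈ O)
    (hd : Disjoint Z O) (iZ : Z → U) (iO : O → U) (hiZ : ∀ j, (iZ j : J) = j)
    (hiO : ∀ j, (iO j : J) = j) (F : U → R) :
    ∑ j : U, F j = ∑ j : Z, F (iZ j) + ∑ j : O, F (iO j) := by
  rw [← Fintype.sum_bijective (Sum.elim iZ iO) (uni_bij hU hd iZ iO hiZ hiO)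
    (fun x => F (Sum.elim iZ iO x)) F fun x => rfl, Fintype.sum_sum_type]
  rfl

theorem spl_card (hU : ∀ j, j ∈ U ↔ j ∈ Z ∨ j ∈ O)
    (hd : Disjoint Z O) (iZ : Z → U) (iO : O → U) (hiZ : ∀ j, (iZ j : J) = j)
    (hiO : ∀ j, (iO j : J) = j) : U.card = Z.card + O.card := by
  have h := spl_sum hU hd iZ iO hiZ hiO (fun _ => 1)
  simpa using h

/-- functions on a disjoint union -/
private def eqv (hU : ∀ j, j ∈ U ↔ j ∈ Z ∨ j ∈ O) (hd : Disjoint Z O) (iZ : Z → U) (iO : O → U)
    (hiZ : ∀ j, (iZ j : J) = j) (hiO : ∀ j, (iO j : J) = j) :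
    (U → α) ≃ (Z → α) × (O → α) where
  toFun u := (fun j => u (iZ j), fun j => u (iO j))
  invFun w j := if h : (j : J) ∈ Z then w.1 ⟨j, h⟩ else
    w.2 ⟨j, ((hU j).1 j.2).resolve_left h⟩
  left_inv u := by
    funext j
    by_cases h : (j : J) ∈ Z
    · have e : iZ ⟨j, h⟩ = j := Subtype.ext (hiZ _)
      simp only [dif_pos h, e]
    · have e : iO ⟨j, ((hU j).1 j.2).resolve_left h⟩ = j := Subtype.ext (hiO _)
      simp only [dif_neg h, e]
  right_inv w := by
    refine Prod.ext ?_ ?_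
    · funext j
      have h : ((iZ j : U) : J) ∈ Z := by
        rw [hiZ]
        exact j.2
      have e : (⟨(iZ j : J), h⟩ : Z) = j := Subtype.ext (hiZ _)
      simp only [dif_pos h, e]
    · funext j
      have h : ((iO j : U) : J) ∉ Z := by
        rw [hiO]
        exact fun h => Finset.disjoint_left.1 hd h j.2
      have e : (⟨(iO j : J), ((hU _).1 (iO j).2).resolve_left h⟩ : O) = j := Subtype.ext (hiO _)
      simp only [dif_neg h, e]

theorem fib_sum [Fintype α] (hU : ∀ j, j ∈ U ↔ j ∈ Z ∨ j ∈ O) (hd : Disjoint Z O) (iZ : Z → U)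
    (iO : O → U) (hiZ : ∀ j, (iZ j : J) = j) (hiO : ∀ j, (iO j : J) = j)
    (sU : Finset (U → α)) (hsU : ∀ u, u ∈ sU) (sO : Finset (O → α)) (hsO : ∀ u, u ∈ sO)
    (a : J → α → ℂ) (B : (O → α) → ℂ) :
    ∑ u ∈ sU, (∏ j : Z, a j (u (iZ j))) * B (fun j => u (iO j)) =
      (∏ j : Z, ∑ s : α, a j s) * ∑ b ∈ sO, B b := by
  have eU : sU = Finset.univ := Finset.eq_univ_of_forall hsU
  have eO : sO = Finset.univ := Finset.eq_univ_of_forall hsO
  have h2 := Fintype.sum_equiv (eqv (α := α) hU hd iZ iO hiZ hiO)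
    (fun u => (∏ j : Z, a j (u (iZ j))) * B (fun j => u (iO j)))
    (fun w : (Z → α) × (O → α) => (∏ j : Z, a j (w.1 j)) * B w.2) (fun u => rfl)
  rw [eU, eO, h2, Fintype.sum_prod_type]
  dsimp only
  have h3 := Finset.prod_univ_sum (fun _ : Z => (Finset.univ : Finset α)) (fun j s => a j s)
  rw [Fintype.piFinset_univ] at h3
  rw [h3, Finset.sum_mul_sum]

end gen

section one

variable {F P M : Type} [Group F] [Group P] [AddCommGroup M] [DistribMulAction P M] {I : Type}

theorem pre_sgl (i : I) : pre [i] i = [] := pre_append [] [] i (by simp)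

theorem zeta_sgl (Φ : F →* Sd P M) (a d : I → F) (i : I) (h : Φ ⁅a i, d i⁆ = 1)
    (ha : (Φ (a i)).x = 1) : zeta (fun w => (Φ w).n) a d [i] i = (Φ (a i)).n := by
  have h2 : wd a d ([] : List I) = 1 := by rw [wd, List.map_nil, List.prod_nil]
  unfold zeta
  beta_reduce
  rw [pre_sgl, h2, one_mul, one_mul, map_inv, h, inv_one, map_inv, sd_inv, ha, inv_one, one_smul]
  show (0 : M) - -(Φ (a i)).n = _
  rw [zero_sub, neg_neg]

theorem zet'_sgl (Φ : F →* Sd P M) (a d : I → F) (i : I) (h : Φ ⁅a i, d i⁆ = 1) :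
    H71.S3.zet' (fun w => (Φ w).n) a d [i] i = -((Φ (d i)).x⁻¹ • (Φ (d i)).n) := by
  have h2 : wd a d ([] : List I) = 1 := by rw [wd, List.map_nil, List.prod_nil]
  unfold H71.S3.zet'
  beta_reduce
  rw [pre_sgl, h2, one_mul, map_inv, map_mul, h, one_mul, inv_one, map_one, sd_inv]
  show -((Φ (d i)).x⁻¹ • (Φ (d i)).n) - (0 : M) = _
  rw [sub_zero]

end one

end H1.S3.Fbs
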