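import Pool.Agent.H73.S3.Nnx
import Mathlib.Analysis.Fourier.FiniteAbelian.PontryaginDuality

/-!
# [H1 S3 OBX] Lemma 5 for stage 1 (MP_b39724_nt, stage 3, chapter B), AD level

* `Nq N = N / [N, S]`, additive, `nk N s` the class of `s ∈ N`, `nv ψ s = ψ (nk N s)` for `s ∈ N`, `0` otherwise. `sum_nv`: orthogonality.
* `h_one`: `H 1 τ x = (|gam_2| / |N|) ∑_ψ E_u [1_G ∏_v ψ (b_v)]`, `u` random in `Cg 1`, `b_v` the block of the place `v`, `N = ker (Pi | S)`: independent of `τ`.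
-/

set_option autoImplicit false

open scoped commutatorElement
open scoped Classical

noncomputable section

namespace H1.S3.Obx

open H73.S3

attribute [local instance 50] Fintype.ofFinite

section nq

variable {S : Type} [Group S]

/-- `N / [N, S]` -/
def Nq (N : Subgroup S) : Type := Additive (N ⧸ (⁅N, (⊤ : Subgroup S)⁆).subgroupOf N)

instance nq_group (N : Subgroup S) [N.Normal] : AddGroup (Nq N) := by
  unfold Nq
  infer_instance

instance nq_comm (N : Subgroup S) [N.Normal] : AddCommGroup (Nq N) :=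
  { nq_group N with
    add_comm := by
      intro a b
      induction a using QuotientGroup.induction_on with
      | _ a =>
        induction b using QuotientGroup.induction_on with
        | _ b =>
          refine (QuotientGroup.eq (s := (⁅N, (⊤ : Subgroup S)⁆).subgroupOf N)).2 ?_
          rw [Subgroup.mem_subgroupOf]
          have h : ⁅(b : S)⁻¹, (a : S)⁻¹⁆ ∈ (⁅N, (⊤ : Subgroup S)⁆ : Subgroup S) :=
            Subgroup.commutator_mem_commutator (N.inv_mem b.2) (Subgroup.mem_top _)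
          have h2 : (((a * b)⁻¹ * (b * a) : N) : S) = ⁅(b : S)⁻¹, (a : S)⁻¹⁆ := by
            simp only [Subgroup.coe_mul, Subgroup.coe_inv, commutatorElement_def]
            group
          rw [h2]
          exact h }

instance nq_finite [Finite S] (N : Subgroup S) : Finite (Nq N) := by
  unfold Nq
  infer_instance

/-- the class of an element of `N` -/
def nmk (N : Subgroup S) [N.Normal] (s : N) : Nq N :=
  (Additive.ofMul (QuotientGroup.mk s) : Additive (N ⧸ (⁅N, (⊤ : Subgroup S)⁆).subgroupOf N))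

/-- the class of an element -/
def nk (N : Subgroup S) [N.Normal] (s : S) : Nq N := if h : s ∈ N then nmk N ⟨s, h⟩ else 0

variable {N : Subgroup S} [N.Normal]

theorem nk_of {s : S} (h : s ∈ N) : nk N s = nmk N ⟨s, h⟩ := dif_pos h

theorem nk_mul {s t : S} (hs : s ∈ N) (ht : t ∈ N) : nk N (s * t) = nk N s + nk N t := by
  rw [nk_of hs, nk_of ht, nk_of (mul_mem hs ht)]
  rfl

theorem nk_zero {s : S} (hs : s ∈ N) : nk N s = 0 ↔ s ∈ (⁅N, (⊤ : Subgroup S)⁆ : Subgroup S) := by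
  rw [nk_of hs]
  have h := QuotientGroup.eq_one_iff (N := (⁅N, (⊤ : Subgroup S)⁆).subgroupOf N) (⟨s, hs⟩ : N)
  rw [Subgroup.mem_subgroupOf] at h
  exact h

theorem com_le : (⁅N, (⊤ : Subgroup S)⁆ : Subgroup S) ≤ N := Subgroup.commutator_le_left _ _

theorem nk_conj {s : S} (hs : s ∈ N) (t : S) : nk N (t * s * t⁻¹) = nk N s := by
  have h1 : t * s * t⁻¹ = s * ⁅s⁻¹, t⁆ := by
    rw [commutatorElement_def]
    group
  have h2 : ⁅s⁻¹, t⁆ ∈ (⁅N, (⊤ : Subgroup S)⁆ : Subgroup S) :=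
    Subgroup.commutator_mem_commutator (N.inv_mem hs) (Subgroup.mem_top _)
  rw [h1, nk_mul hs (com_le h2), (nk_zero (com_le h2)).2 h2, add_zero]

theorem nk_one : nk N (1 : S) = 0 := (nk_zero (one_mem _)).2 (one_mem _)

/-- the number of the classes -/
theorem card_nq [Finite S] : Nat.card (Nq N) * Nat.card (⁅N, (⊤ : Subgroup S)⁆ : Subgroup S) =
    Nat.card N := by
  have h1 := Subgroup.card_eq_card_quotient_mul_card_subgroup
    ((⁅N, (⊤ : Subgroup S)⁆).subgroupOf N)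
  rw [Nat.card_congr (Subgroup.subgroupOfEquivOfLe (com_le (N := N))).toEquiv] at h1
  exact h1.symm

/-- the value of a character at an element of `N` -/
def nv (ψ : AddChar (Nq N) ℂ) (s : S) : ℂ := if s ∈ N then ψ (nk N s) else 0

theorem nv_of (ψ : AddChar (Nq N) ℂ) {s : S} (h : s ∈ N) : nv ψ s = ψ (nk N s) := if_pos h

theorem nv_no (ψ : AddChar (Nq N) ℂ) {s : S} (h : s ∉ N) : nv ψ s = 0 := if_neg h

theorem nv_one (ψ : AddChar (Nq N) ℂ) : nv ψ (1 : S) = 1 := by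
  rw [nv_of ψ (one_mem _), nk_one, AddChar.map_zero_eq_one]

theorem nv_mul (ψ : AddChar (Nq N) ℂ) {s t : S} (hs : s ∈ N) (ht : t ∈ N) :
    nv ψ (s * t) = nv ψ s * nv ψ t := by
  rw [nv_of ψ hs, nv_of ψ ht, nv_of ψ (mul_mem hs ht), nk_mul hs ht, AddChar.map_add_eq_mul]

theorem nv_conj (ψ : AddChar (Nq N) ℂ) (s t : S) : nv ψ (t * s * t⁻¹) = nv ψ s := by
  by_cases hs : s ∈ N
  · rw [nv_of ψ hs, nv_of ψ (Subgroup.Normal.conj_mem inferInstance s hs t), nk_conj hs t]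
  · rw [nv_no ψ hs, nv_no ψ]
    intro h
    have h1 := Subgroup.Normal.conj_mem (H := N) inferInstance _ h t⁻¹
    rw [inv_inv] at h1
    apply hs
    have h2 : t⁻¹ * (t * s * t⁻¹) * t = s := by group
    rwa [h2] at h1

theorem nv_zero {s : S} (hs : s ∈ N) : nv (0 : AddChar (Nq N) ℂ) s = 1 := by
  rw [nv_of _ hs]
  rfl

theorem norm_nv [Finite S] (ψ : AddChar (Nq N) ℂ) (s : S) : ‖nv ψ s‖ ≤ 1 := by
  by_cases hs : s ∈ N
  · rw [nv_of ψ hs, AddChar.norm_apply]
  · rw [nv_no ψ hs, norm_zero]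
    exact zero_le_one

theorem norm_nv_of [Finite S] (ψ : AddChar (Nq N) ℂ) {s : S} (hs : s ∈ N) : ‖nv ψ s‖ = 1 := by
  rw [nv_of ψ hs, AddChar.norm_apply]

theorem nv_prod (ψ : AddChar (Nq N) ℂ) {V : Type} (f : V → S) (l : List V)
    (h : ∀ v ∈ l, f v ∈ N) : nv ψ (l.map f).prod = (l.map fun v => nv ψ (f v)).prod := by
  induction l with
  | nil =>
    rw [List.map_nil, List.map_nil, List.prod_nil, List.prod_nil, nv_one]
  | cons a l ih =>
    have h1 : ∀ v ∈ l, f v ∈ N := fun v hv => h v (List.mem_cons_of_mem _ hv)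
    rw [List.map_cons, List.map_cons, List.prod_cons, List.prod_cons,
      nv_mul ψ (h a List.mem_cons_self) (Subgroup.list_prod_mem _ ?_), ih h1]
    intro x hx
    obtain ⟨v, hv, rfl⟩ := List.mem_map.1 hx
    exact h1 v hv

/-- orthogonality -/
theorem sum_nv [Finite S] {r : S} (hr : r ∈ N) :
    ∑ ψ : AddChar (Nq N) ℂ, nv ψ r = if r ∈ (⁅N, (⊤ : Subgroup S)⁆ : Subgroup S) then
      (Nat.card N : ℂ) / (Nat.card (⁅N, (⊤ : Subgroup S)⁆ : Subgroup S) : ℂ) else 0 := by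
  have h1 : ∑ ψ : AddChar (Nq N) ℂ, nv ψ r = ∑ ψ : AddChar (Nq N) ℂ, ψ (nk N r) :=
    Finset.sum_congr rfl fun ψ _ => nv_of ψ hr
  have hc : (Nat.card (⁅N, (⊤ : Subgroup S)⁆ : Subgroup S) : ℂ) ≠ 0 := by
    exact_mod_cast Nat.card_pos.ne'
  have h2 : (Nat.card N : ℂ) / (Nat.card (⁅N, (⊤ : Subgroup S)⁆ : Subgroup S) : ℂ) =
      (Nat.card (Nq N) : ℂ) := by
    rw [div_eq_iff hc]
    exact_mod_cast (card_nq (N := N)).symm
  rw [h1, AddChar.sum_apply_eq_ite, h2, Nat.card_eq_fintype_card]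
  simp only [nk_zero hr]

end nq

section one

variable {S P P' : Type} [Group S] [Group P] [Group P'] [MulDistribMulAction P S] {J V : Type}

/-- the value of `H 1` -/
theorem h_one [Fintype S] (X : AD S P J V) {p k Mw q c : ℕ} {Pi : SP S P →* P'}
    (hX : X.Ok p k Mw q c Pi) (τ : V → S) (x : J → SP S P)
    (hx : ∀ j ∈ X.Jf, (x j).right = X.ph (X.W j)) :
    X.H 1 τ x = (Nat.card (gm S 2) : ℂ) / (Nat.card (Nks Pi) : ℂ) *
      ∑ ψ : AddChar (Nq (Nks Pi)) ℂ, (∑ u ∈ X.Cg 1, if X.G (X.mv u x) then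
        (X.l.map fun v => nv ψ (X.bk (X.mv u x) v).left).prod else 0) / ((X.Cg 1).card : ℂ) := by
  obtain ⟨N, hN⟩ : ∃ N : Subgroup S, N = Nks Pi := ⟨_, rfl⟩
  have hNn : N.Normal := by
    rw [hN]
    infer_instance
  have hgm : Nks Pi ⊓ gm S 1 = Nks Pi := by
    rw [gm_one, inf_top_eq]
  have h1 := h_cnt X hX 1 τ x hx
  rw [hgm] at h1
  have hcN : (Nat.card (Nks Pi) : ℂ) ≠ 0 := by exact_mod_cast Nat.card_pos.ne'
  have hc : (Nat.card (⁅Nks Pi, (⊤ : Subgroup S)⁆ : Subgroup S) : ℂ) ≠ 0 := by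
    exact_mod_cast Nat.card_pos.ne'
  have h2 : ∑ ψ : AddChar (Nq (Nks Pi)) ℂ, (∑ u ∈ X.Cg 1, if X.G (X.mv u x) then
        (X.l.map fun v => nv ψ (X.bk (X.mv u x) v).left).prod else 0) =
      (Nat.card (Nks Pi) : ℂ) / (Nat.card (⁅Nks Pi, (⊤ : Subgroup S)⁆ : Subgroup S) : ℂ) *
        (((X.Cg 1).filter fun u => X.G (X.mv u x) ∧
        (X.l.map fun v => τ v * (X.bk (X.mv u x) v).left * (τ v)⁻¹).prod ∈
          (⁅Nks Pi, ⊤⁆ : Subgroup S)).card : ℂ) := by
    rw [Finset.sum_comm, Finset.card_filter, Nat.cast_sum, Finset.mul_sum]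
    refine Finset.sum_congr rfl fun u _ => ?_
    by_cases hG : X.G (X.mv u x)
    · have hm : ∀ v ∈ X.l, τ v * (X.bk (X.mv u x) v).left * (τ v)⁻¹ ∈ Nks Pi := fun v hv =>
        (nks_normal Pi).conj_mem _ (blk_nks X hX hx hG hv) (τ v)
      have hr : (X.l.map fun v => τ v * (X.bk (X.mv u x) v).left * (τ v)⁻¹).prod ∈ Nks Pi := by
        refine Subgroup.list_prod_mem _ fun y hy => ?_
        obtain ⟨v, hv, rfl⟩ := List.mem_map.1 hy
        exact hm v hv
      have h3 : ∀ ψ : AddChar (Nq (Nks Pi)) ℂ, (if X.G (X.mv u x) then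
          (X.l.map fun v => nv ψ (X.bk (X.mv u x) v).left).prod else 0) =
          nv ψ (X.l.map fun v => τ v * (X.bk (X.mv u x) v).left * (τ v)⁻¹).prod := by
        intro ψ
        rw [if_pos hG, nv_prod ψ _ X.l hm]
        congr 1
        exact List.map_congr_left fun v _ => (nv_conj ψ _ _).symm
      rw [Finset.sum_congr rfl fun ψ _ => h3 ψ, sum_nv hr]
      by_cases h4 : (X.l.map fun v => τ v * (X.bk (X.mv u x) v).left * (τ v)⁻¹).prod ∈
          (⁅Nks Pi, ⊤⁆ : Subgroup S)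
      · rw [if_pos h4, if_pos ⟨hG, h4⟩, Nat.cast_one, mul_one]
      · rw [if_neg h4, if_neg fun h => h4 h.2, Nat.cast_zero, mul_zero]
    · rw [if_neg fun h => hG h.1, Nat.cast_zero, mul_zero]
      exact Finset.sum_eq_zero fun ψ _ => if_neg hG
  rw [← Finset.sum_div, h2]
  unfold AD.H
  have h3 : (((X.Cg 1).filter fun u => X.G (X.mv u x) ∧
        (X.l.map fun v => τ v * (X.bk (X.mv u x) v).left * (τ v)⁻¹).prod ∈
          (⁅Nks Pi, ⊤⁆ : Subgroup S)).card : ℂ) =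
      (Nat.card (⁅Nks Pi, (⊤ : Subgroup S)⁆ : Subgroup S) : ℂ) *
        (((X.Cg 1).filter fun u => X.G (X.mv u x) ∧ X.RR τ (X.mv u x) = 1).card : ℂ) := by
    exact_mod_cast h1.symm
  rw [h3]
  field_simp

end one

end H1.S3.Obx
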