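import Mathlib

/-!
# H1-S3-Prz: the pairing of crossed homomorphisms (stage 3, chapter B, section 3)

`F` a group acting on abelian groups `M` and `N`, `B : N → M → A` an invariant pairing.
* `CH c`: `c` is a crossed homomorphism.  `dm m`: `x ↦ m - x m`.
* `Zf B k c z`: `z (x y) = z x + z y + B (k x) (x c(y))` (`k`, `c` crossed homomorphisms with values in `N`, `M`).
* `wd A D l`: the product of the commutators `⁅A i, D i⁆`, `i` in the list `l`.
* `zeta k A D l i = k ((p ⁅A i, D i⁆)⁻¹) - k ((p A i)⁻¹)`, `p` the product of the commutators before `i`.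
(3.1) `zf_comm`, (3.2) `zf_dm`, `zf_dl`, (3.3) `zf_wd`.
-/

set_option autoImplicit false

open scoped commutatorElement

noncomputable section

namespace H1.S3

section defs

variable {F : Type} [Group F] {M N A : Type} [AddCommGroup M] [AddCommGroup N] [AddCommGroup A]
  [DistribMulAction F M] [DistribMulAction F N]

/-- crossed homomorphism -/
def CH (c : F → M) : Prop := ∀ x y, c (x * y) = c x + x • c y

/-- the crossed homomorphism of `m` -/
def dm (m : M) (x : F) : M := m - x • m

/-- invariant pairing -/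
def Ivt (F : Type) [Group F] [DistribMulAction F M] [DistribMulAction F N]
    (B : N →+ M →+ A) : Prop := ∀ (x : F) (n : N) (m : M), B (x • n) (x • m) = B n m

/-- the quadratic function of a pair of crossed homomorphisms -/
def Zf (B : N →+ M →+ A) (k : F → N) (c : F → M) (z : F → A) : Prop :=
  ∀ x y, z (x * y) = z x + z y + B (k x) (x • c y)

/-- a product of commutators -/
def wd {I : Type} (a d : I → F) (l : List I) : F := (l.map fun i => ⁅a i, d i⁆).prod

open Classical in
/-- the prefix of `i` -/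
def pre {I : Type} (l : List I) (i : I) : List I := l.takeWhile fun j => decide (j ≠ i)

/-- `ζ_i` -/
def zeta {I : Type} (k : F → N) (a d : I → F) (l : List I) (i : I) : N :=
  k ((wd a d (pre l i) * ⁅a i, d i⁆)⁻¹) - k ((wd a d (pre l i) * a i)⁻¹)

end defs

section ch

variable {F : Type} [Group F] {M : Type} [AddCommGroup M] [DistribMulAction F M]

theorem CH.one {c : F → M} (h : CH c) : c 1 = 0 := by
  have h1 := h 1 1
  rw [mul_one, one_smul] at h1
  exact left_eq_add.mp h1

theorem CH.inv {c : F → M} (h : CH c) (x : F) : c x⁻¹ = -(x⁻¹ • c x) := by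
  have h1 := h x⁻¹ x
  rw [inv_mul_cancel, h.one] at h1
  exact eq_neg_of_add_eq_zero_left h1.symm

theorem CH.comm {c : F → M} (h : CH c) (x y : F) :
    c ⁅x, y⁆ = c x + x • c y - (x * y * x⁻¹) • c x - ⁅x, y⁆ • c y := by
  rw [commutatorElement_def, h, h, h, h.inv, h.inv, smul_neg, smul_neg, ← mul_smul, ← mul_smul,
    sub_eq_add_neg, sub_eq_add_neg]

theorem CH.add {c c' : F → M} (h : CH c) (h' : CH c') : CH (fun x => c x + c' x) := by
  intro x y
  simp only [h x y, h' x y, smul_add]
  abel

theorem CH.sub {c c' : F → M} (h : CH c) (h' : CH c') : CH (fun x => c x - c' x) := by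
  intro x y
  simp only [h x y, h' x y, smul_sub]
  abel

theorem dm_ch (m : M) : CH (dm (F := F) m) := by
  intro x y
  simp only [dm, smul_sub, mul_smul]
  abel

end ch

section zf

variable {F : Type} [Group F] {M N A : Type} [AddCommGroup M] [AddCommGroup N] [AddCommGroup A]
  [DistribMulAction F M] [DistribMulAction F N] {B : N →+ M →+ A}

theorem Ivt.left (hB : Ivt F B) (x : F) (n : N) (m : M) : B n (x • m) = B (x⁻¹ • n) m := by
  have h := hB x (x⁻¹ • n) m
  rw [smul_inv_smul] at h
  exact h

theorem Zf.one {k : F → N} {c : F → M} {z : F → A} (hz : Zf B k c z) (hk : CH k) : z 1 = 0 := by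
  have h1 := hz 1 1
  rw [mul_one, hk.one, map_zero, AddMonoidHom.zero_apply, add_zero] at h1
  exact left_eq_add.mp h1

theorem Zf.inv (hB : Ivt F B) {k : F → N} {c : F → M} {z : F → A} (hz : Zf B k c z)
    (hk : CH k) (hc : CH c) (x : F) : z x⁻¹ = -z x + B (k x) (c x) := by
  have h1 := hz x x⁻¹
  rw [mul_inv_cancel, hz.one hk, hc.inv, smul_neg, smul_inv_smul, map_neg] at h1
  have h2 : z x + z x⁻¹ = B (k x) (c x) := by
    have := h1.symm
    rw [← sub_eq_add_neg, sub_eq_zero] at this
    exact this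
  rw [← h2]
  abel

/-- (3.1) -/
theorem zf_comm (hB : Ivt F B) {k : F → N} {c : F → M} {z : F → A} (hz : Zf B k c z)
    (hk : CH k) (hc : CH c) (x y : F) :
    z ⁅x, y⁆ = B (k x) (x • c y) - B (k y) (y • c x) - B (k ⁅x, y⁆) (⁅x, y⁆ • c (y * x)) := by
  have h1 := hz ⁅x, y⁆ (y * x)
  have h2 : ⁅x, y⁆ * (y * x) = x * y := by
    rw [commutatorElement_def]
    group
  rw [h2, hz x y, hz y x] at h1
  have h3 : z ⁅x, y⁆ = (z x + z y + B (k x) (x • c y)) - (z y + z x + B (k y) (y • c x)) -
      B (k ⁅x, y⁆) (⁅x, y⁆ • c (y * x)) := by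
    rw [h1]
    abel
  rw [h3]
  abel

/-- (3.2), first case -/
theorem zf_dm {k : F → N} (hk : CH k) (hB : Ivt F B) (m : M) :
    Zf B k (dm m) (fun x => -B (k x) (x • m)) := by
  intro x y
  have h1 : B (x • k y) (x • y • m) = B (k y) (y • m) := hB x _ _
  simp only [dm, hk x y, map_add, AddMonoidHom.add_apply, smul_sub, map_sub, mul_smul, h1]
  abel

/-- (3.2), second case -/
theorem zf_dl {c : F → M} (hc : CH c) (hB : Ivt F B) (l : N) :
    Zf B (fun x : F => x • l - l) c (fun x => -B l (c x)) := by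
  intro x y
  have h1 : B (x • l) (x • c y) = B l (c y) := hB x _ _
  simp only [hc x y, map_add, map_sub, AddMonoidHom.sub_apply, h1]
  abel

/-- sums -/
theorem Zf.add {k : F → N} {c c' : F → M} {z z' : F → A} (h : Zf B k c z) (h' : Zf B k c' z') :
    Zf B k (fun x => c x + c' x) (fun x => z x + z' x) := by
  intro x y
  simp only [h x y, h' x y, smul_add, map_add]
  abel

/-- two solutions agree on commutators -/
theorem Zf.uniq {k : F → N} {c : F → M} {z z' : F → A} (h : Zf B k c z) (h' : Zf B k c z')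
    (hk : CH k) (x y : F) (w : F) : z (⁅x, y⁆ * w) - z' (⁅x, y⁆ * w) = z w - z' w := by
  set u : F → A := fun x => z x - z' x with hu
  have hm : ∀ x y, u (x * y) = u x + u y := by
    intro x y
    simp only [hu, h x y, h' x y]
    abel
  have h1 : u 1 = 0 := by
    have := hm 1 1
    rw [mul_one] at this
    exact left_eq_add.mp this
  have hi : ∀ x, u x⁻¹ = -u x := by
    intro x
    have := hm x⁻¹ x
    rw [inv_mul_cancel, h1] at this
    exact eq_neg_of_add_eq_zero_left this.symm
  have h2 : u (⁅x, y⁆ * w) = u w := by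
    rw [hm, commutatorElement_def, hm, hm, hm, hi, hi]
    abel
  exact h2

theorem Zf.uniq_wd {I : Type} {k : F → N} {c : F → M} {z z' : F → A} (h : Zf B k c z)
    (h' : Zf B k c z') (hk : CH k) (a d : I → F) (l : List I) : z (wd a d l) = z' (wd a d l) := by
  induction l with
  | nil =>
    rw [wd, List.map_nil, List.prod_nil, h.one hk, h'.one hk]
  | cons i l ih =>
    have h1 := Zf.uniq h h' hk (a i) (d i) (wd a d l)
    rw [ih, sub_self, sub_eq_zero] at h1
    rw [wd, List.map_cons, List.prod_cons]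
    exact h1

theorem wd_append {I : Type} (a d : I → F) (l l' : List I) :
    wd a d (l ++ l') = wd a d l * wd a d l' := by
  rw [wd, List.map_append, List.prod_append]
  rfl

theorem wd_single {I : Type} (a d : I → F) (i : I) : wd a d [i] = ⁅a i, d i⁆ := by
  rw [wd, List.map_cons, List.map_nil, List.prod_cons, List.prod_nil, mul_one]

theorem pre_append {I : Type} (l l' : List I) (i : I) (h : (l ++ i :: l').Nodup) :
    pre (l ++ i :: l') i = l := by
  classical
  have h1 : i ∉ l := by
    intro hi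
    rw [List.nodup_append] at h
    exact h.2.2 i hi i (List.mem_cons_self) rfl
  unfold pre
  rw [List.takeWhile_append_of_pos, List.takeWhile_cons_of_neg, List.append_nil]
  · simp
  · intro j hj
    simp only [ne_eq, decide_not, Bool.not_eq_eq_eq_not, Bool.not_true, decide_eq_false_iff_not]
    rintro rfl
    exact h1 hj

/-- one step -/
theorem zf_step (hB : Ivt F B) {k : F → N} {c : F → M} {z : F → A} (hz : Zf B k c z)
    (hk : CH k) (hc : CH c) (p x y : F) (hx : c x = 0) :
    z (p * ⁅x, y⁆) = z p + B (k ((p * ⁅x, y⁆)⁻¹) - k ((p * x)⁻¹)) (c y) := by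
  have h1 : c ⁅x, y⁆ = x • c y - ⁅x, y⁆ • c y := by
    rw [hc.comm, hx, smul_zero]
    abel
  have h2 : c (y * x) = c y := by rw [hc, hx, smul_zero, add_zero]
  rw [hz, zf_comm hB hz hk hc, h2, hx, smul_zero, map_zero, sub_zero, h1]
  have h3 : k ((p * ⁅x, y⁆)⁻¹) = -(⁅x, y⁆⁻¹ • k ⁅x, y⁆) - (p * ⁅x, y⁆)⁻¹ • k p := by
    rw [hk.inv, hk, smul_add, smul_smul, mul_inv_rev, mul_assoc, inv_mul_cancel, mul_one]
    abel
  have h4 : k ((p * x)⁻¹) = -(x⁻¹ • k x) - (p * x)⁻¹ • k p := by
    rw [hk.inv, hk, smul_add, smul_smul, mul_inv_rev, mul_assoc, inv_mul_cancel, mul_one]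
    abel
  rw [h3, h4, smul_sub, map_sub, ← mul_smul, ← mul_smul, hB.left x (k x), hB.left ⁅x, y⁆ (k ⁅x, y⁆),
    hB.left (p * x) (k p), hB.left (p * ⁅x, y⁆) (k p)]
  simp only [map_sub, map_neg, AddMonoidHom.sub_apply, AddMonoidHom.neg_apply]
  abel

/-- (3.3) -/
theorem zf_wd (hB : Ivt F B) {I : Type} {k : F → N} {c : F → M} {z : F → A} (hz : Zf B k c z)
    (hk : CH k) (hc : CH c) (a d : I → F) (l : List I) (hl : l.Nodup)
    (ha : ∀ i ∈ l, c (a i) = 0) :
    z (wd a d l) = (l.map fun i => B (zeta k a d l i) (c (d i))).sum := by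
  have key : ∀ l2 l1 : List I, l = l1 ++ l2 →
      z (wd a d l1 * wd a d l2) = z (wd a d l1) +
        (l2.map fun i => B (zeta k a d l i) (c (d i))).sum := by
    intro l2
    induction l2 with
    | nil =>
      intro l1 _
      rw [List.map_nil, List.sum_nil, add_zero, wd, wd, List.map_nil, List.prod_nil, mul_one]
    | cons i l2 ih =>
      intro l1 h
      have h1 : l = (l1 ++ [i]) ++ l2 := by rw [h, List.append_assoc]; rfl
      have h2 := ih (l1 ++ [i]) h1
      have h3 : wd a d l1 * wd a d (i :: l2) = wd a d (l1 ++ [i]) * wd a d l2 := by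
        rw [← wd_append, ← wd_append, List.append_assoc]
        rfl
      have hi : c (a i) = 0 := ha i (by rw [h]; simp)
      have h4 : pre l i = l1 := by
        rw [h]
        exact pre_append l1 l2 i (h ▸ hl)
      rw [h3, h2, wd_append, wd_single, zf_step hB hz hk hc _ _ _ hi, List.map_cons, List.sum_cons,
        zeta, h4, add_assoc]
  have h1 := key l [] rfl
  have h2 : wd a d ([] : List I) = 1 := by rw [wd, List.map_nil, List.prod_nil]
  rw [h2, one_mul, hz.one hk, zero_add] at h1
  exact h1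

end zf

end H1.S3
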