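import Pool.Agent.H1.S3.Zet

/-!
# H1-S3-Tav: averaging over the conjugations at the bad places (stage 3, chapter B, section 7 of 1688, 7' of 1707)

`bl j` (`j` in the list `js`): the blocks, `W_j = wd a d (bl j)`; `vs`: the other places, with `t v` acting trivially, `k (t v) = c (t v) = 0`.
* `tav_eq`: `∑_j ∑_{i in bl j} B (ζ_i) (c (d i) - (1 - d i) m_j) = ∑_j B (k W_j) (m_j - ∑_{j' after j} c W_j')` if `z` of the relation is `0`.
* `tav`: the sum over `m` of `e` of the left side is `0` unless `k W_j = 0` for all `j`.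
* `Hz B Q`: the group of quadruples (Heisenberg group), `hz_hom`: the homomorphism `x ↦ (ρ x, k x, c x, z x)`; `zf_exists`: existence of `z` for a free group.
-/

set_option autoImplicit false

open scoped commutatorElement

noncomputable section

namespace H1.S3

open Classical in
/-- the elements after `j` -/
def aft {J : Type} (l : List J) (j : J) : List J := (l.dropWhile fun i => decide (i ≠ j)).tail

theorem aft_append {J : Type} (l l' : List J) (j : J) (h : (l ++ j :: l').Nodup) :
    aft (l ++ j :: l') j = l' := by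
  classical
  have h1 : j ∉ l := by
    intro hi
    rw [List.nodup_append] at h
    exact h.2.2 j hi j (List.mem_cons_self) rfl
  unfold aft
  rw [List.dropWhile_append_of_pos, List.dropWhile_cons_of_neg, List.tail_cons]
  · simp
  · intro i hi
    simp only [ne_eq, decide_not, Bool.not_eq_eq_eq_not, Bool.not_true, decide_eq_false_iff_not]
    rintro rfl
    exact h1 hi

section one

variable {F : Type} [Group F] {M N A : Type} [AddCommGroup M] [AddCommGroup N] [AddCommGroup A]
  [DistribMulAction F M] [DistribMulAction F N] {B : N →+ M →+ A}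

/-- a trivially acting list -/
theorem ch_list {J : Type} {c : F → M} (hc : CH c) (w : J → F) (l : List J)
    (h : ∀ j ∈ l, ∀ y : M, w j • y = y) : c (l.map w).prod = (l.map fun j => c (w j)).sum := by
  induction l with
  | nil => rw [List.map_nil, List.prod_nil, List.map_nil, List.sum_nil, hc.one]
  | cons j l ih =>
    rw [List.map_cons, List.prod_cons, hc, List.map_cons, List.sum_cons,
      h j List.mem_cons_self, ih fun i hi => h i (List.mem_cons_of_mem _ hi)]

/-- the product of the blocks -/
theorem zf_list {J : Type} {k : F → N} {c : F → M} {z : F → A} (hz : Zf B k c z) (hk : CH k)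
    (hc : CH c) (w : J → F) (l : List J) (hl : l.Nodup) (h : ∀ j ∈ l, ∀ y : M, w j • y = y) :
    z (l.map w).prod = (l.map fun j => z (w j) +
      B (k (w j)) ((aft l j).map fun i => c (w i)).sum).sum := by
  have key : ∀ l2 l1 : List J, l = l1 ++ l2 → z (l2.map w).prod = (l2.map fun j => z (w j) +
      B (k (w j)) ((aft l j).map fun i => c (w i)).sum).sum := by
    intro l2
    induction l2 with
    | nil =>
      intro l1 _
      rw [List.map_nil, List.prod_nil, List.map_nil, List.sum_nil, hz.one hk]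
    | cons j l2 ih =>
      intro l1 h1
      have h2 : l = (l1 ++ [j]) ++ l2 := by rw [h1, List.append_assoc]; rfl
      have h3 := ih (l1 ++ [j]) h2
      have h4 : aft l j = l2 := by
        rw [h1]
        exact aft_append l1 l2 j (h1 ▸ hl)
      have hj : j ∈ l := by rw [h1]; simp
      have h5 : ∀ i ∈ l2, ∀ y : M, w i • y = y := fun i hi => h i (by rw [h1]; simp [hi])
      rw [List.map_cons, List.prod_cons, hz, h j hj, ch_list hc w l2 h5, h3, List.map_cons,
        List.sum_cons, h4]
      abel
  exact key l [] rfl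

/-- a commutator with a trivially acting letter -/
theorem zf_triv (hB : Ivt F B) {k : F → N} {c : F → M} {z : F → A} (hz : Zf B k c z) (hk : CH k)
    (hc : CH c) (t x : F) (h1 : k t = 0) (h2 : c t = 0) (h3 : ∀ n : N, t • n = n) :
    k ⁅t, x⁆ = 0 ∧ z ⁅t, x⁆ = 0 := by
  have hti : ∀ n : N, t⁻¹ • n = n := fun n => by
    conv_lhs => rw [← h3 n]
    rw [inv_smul_smul]
  have hk0 : k ⁅t, x⁆ = 0 := by
    rw [hk.comm, h1, smul_zero, h3, commutatorElement_def, mul_smul, mul_smul, mul_smul, h3, hti,
      smul_inv_smul]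
    abel
  refine ⟨hk0, ?_⟩
  rw [zf_comm hB hz hk hc, h1, h2, hk0, smul_zero, map_zero, map_zero, AddMonoidHom.zero_apply,
    AddMonoidHom.zero_apply]
  abel

/-- one block -/
theorem zf_block (hB : Ivt F B) {I : Type} {k : F → N} {c : F → M} {z : F → A}
    (hz : Zf B k c z) (hk : CH k) (hc : CH c) (a d : I → F) (l : List I) (hl : l.Nodup) (m : M)
    (ha : ∀ i ∈ l, c (a i) = dm m (a i)) :
    z (wd a d l) = (l.map fun i => B (zeta k a d l i) (c (d i) - dm m (d i))).sum -
      B (k (wd a d l)) (wd a d l • m) := by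
  have h1 : Zf B k (fun x => c x - dm m x) (fun x => z x + B (k x) (x • m)) := by
    intro x y
    have h2 := hz x y
    have h3 := zf_dm hk hB m x y
    simp only [smul_sub, map_sub, h2] at h3 ⊢
    have h4 : B (k (x * y)) ((x * y) • m) =
        B (k x) (x • m) + B (k y) (y • m) - B (k x) (x • dm m y) := by
      rw [← neg_inj, h3]
      abel
    rw [h4]
    abel
  have h2 := zf_wd hB h1 hk (hc.sub (dm_ch m)) a d l hl (fun i hi => by rw [ha i hi, sub_self])
  rw [← h2]
  abel

/-- THE FORMULA -/
theorem tav_eq (hB : Ivt F B) {V I J : Type} {k : F → N} {c : F → M} {z : F → A}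
    (hz : Zf B k c z) (hk : CH k) (hc : CH c) (vs : List V) (t X : V → F)
    (ht : ∀ v ∈ vs, k (t v) = 0 ∧ c (t v) = 0 ∧ ∀ n : N, t v • n = n)
    (a d : I → F) (js : List J) (hjs : js.Nodup) (bl : J → List I)
    (hbl : ∀ j ∈ js, (bl j).Nodup) (m : J → M)
    (ha : ∀ j ∈ js, ∀ i ∈ bl j, c (a i) = dm (m j) (a i))
    (hW : ∀ j ∈ js, ∀ y : M, wd a d (bl j) • y = y)
    (hrel : z ((vs.map fun v => ⁅t v, X v⁆).prod * (js.map fun j => wd a d (bl j)).prod) = 0) :
    (js.map fun j => ((bl j).map fun i =>
      B (zeta k a d (bl j) i) (c (d i) - dm (m j) (d i))).sum).sum =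
    (js.map fun j => B (k (wd a d (bl j)))
      (m j - ((aft js j).map fun i => c (wd a d (bl i))).sum)).sum := by
  have h1 : ∀ (l : List V) (y : F), (∀ v ∈ l, v ∈ vs) →
      z ((l.map fun v => ⁅t v, X v⁆).prod * y) = z y := by
    intro l y
    induction l with
    | nil =>
      intro _
      rw [List.map_nil, List.prod_nil, one_mul]
    | cons v l ih =>
      intro hl
      obtain ⟨h2, h3, h4⟩ := ht v (hl v List.mem_cons_self)
      obtain ⟨h5, h6⟩ := zf_triv hB hz hk hc (t v) (X v) h2 h3 h4
      rw [List.map_cons, List.prod_cons, mul_assoc, hz, h5, h6, map_zero,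
        AddMonoidHom.zero_apply, ih fun i hi => hl i (List.mem_cons_of_mem _ hi)]
      abel
  rw [h1 vs _ (fun v hv => hv), zf_list hz hk hc (fun j => wd a d (bl j)) js hjs hW] at hrel
  have h2 : ∀ l : List J, (∀ j ∈ l, j ∈ js) → (l.map fun j => ((bl j).map fun i =>
      B (zeta k a d (bl j) i) (c (d i) - dm (m j) (d i))).sum).sum =
      (l.map fun j => z (wd a d (bl j)) +
        B (k (wd a d (bl j))) ((aft js j).map fun i => c (wd a d (bl i))).sum).sum +
      (l.map fun j => B (k (wd a d (bl j)))
        (m j - ((aft js j).map fun i => c (wd a d (bl i))).sum)).sum := by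
    intro l
    induction l with
    | nil =>
      intro _
      simp only [List.map_nil, List.sum_nil, add_zero]
    | cons j l ih =>
      intro hl
      have hj := hl j List.mem_cons_self
      have h3 := zf_block hB hz hk hc a d (bl j) (hbl j hj) (m j) (ha j hj)
      rw [hW j hj] at h3
      have h4 := map_sub (B (k (wd a d (bl j)))) (m j)
        ((aft js j).map fun i => c (wd a d (bl i))).sum
      rw [List.map_cons, List.sum_cons, ih fun i hi => hl i (List.mem_cons_of_mem _ hi),
        List.map_cons, List.sum_cons, List.map_cons, List.sum_cons, h3, h4]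
      abel
  rw [h2 js (fun j hj => hj), hrel, zero_add]

end one

section hz

variable {M N A : Type} [AddCommGroup M] [AddCommGroup N] [AddCommGroup A]

/-- the Heisenberg group -/
@[ext] structure Hz (B : N →+ M →+ A) (Q : Type) where
  x : Q
  n : N
  m : M
  a : A

variable {B : N →+ M →+ A} {Q : Type} [Group Q] [DistribMulAction Q M] [DistribMulAction Q N]

instance : Mul (Hz B Q) :=
  ⟨fun u v => ⟨u.x * v.x, u.n + u.x • v.n, u.m + u.x • v.m, u.a + v.a + B u.n (u.x • v.m)⟩⟩
instance : One (Hz B Q) := ⟨⟨1, 0, 0, 0⟩⟩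
instance : Inv (Hz B Q) :=
  ⟨fun u => ⟨u.x⁻¹, -(u.x⁻¹ • u.n), -(u.x⁻¹ • u.m), -u.a + B (u.x⁻¹ • u.n) (u.x⁻¹ • u.m)⟩⟩

theorem hz_mul (u v : Hz B Q) :
    u * v = ⟨u.x * v.x, u.n + u.x • v.n, u.m + u.x • v.m, u.a + v.a + B u.n (u.x • v.m)⟩ := rfl
theorem hz_one : (1 : Hz B Q) = ⟨1, 0, 0, 0⟩ := rfl
theorem hz_inv (u : Hz B Q) :
    u⁻¹ = ⟨u.x⁻¹, -(u.x⁻¹ • u.n), -(u.x⁻¹ • u.m), -u.a + B (u.x⁻¹ • u.n) (u.x⁻¹ • u.m)⟩ := rfl

instance hzGroup [hB : Fact (Ivt Q B)] : Group (Hz B Q) :=
  Group.ofLeftAxioms
    (by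
      intro u v w
      have h1 : B (u.x • v.n) (u.x • v.x • w.m) = B v.n (v.x • w.m) := hB.out u.x v.n (v.x • w.m)
      simp only [hz_mul, smul_add, mul_smul, map_add, AddMonoidHom.add_apply, h1]
      ext
      · exact mul_assoc _ _ _
      · exact add_assoc _ _ _
      · exact add_assoc _ _ _
      · simp only
        abel)
    (by
      intro u
      simp only [hz_mul, hz_one, one_smul, zero_add, one_mul, map_zero, AddMonoidHom.zero_apply,
        add_zero])
    (by
      intro u
      simp only [hz_mul, hz_inv, hz_one, neg_add_cancel, inv_mul_cancel, map_neg,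
        AddMonoidHom.neg_apply]
      ext <;> simp)

theorem hz_finite [Finite Q] [Finite N] [Finite M] [Finite A] : Finite (Hz B Q) := by
  refine Finite.of_injective (fun u : Hz B Q => (u.x, u.n, u.m, u.a)) ?_
  intro u v h
  simp only [Prod.mk.injEq] at h
  exact Hz.ext h.1 h.2.1 h.2.2.1 h.2.2.2

theorem hz_card : Nat.card (Hz B Q) = Nat.card Q * Nat.card N * Nat.card M * Nat.card A := by
  rw [← Nat.card_prod, ← Nat.card_prod, ← Nat.card_prod]
  exact Nat.card_congr ⟨fun u => (((u.x, u.n), u.m), u.a), fun u => ⟨u.1.1.1, u.1.1.2, u.1.2, u.2⟩,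
    fun _ => rfl, fun _ => rfl⟩

variable {F : Type} [Group F] [DistribMulAction F M] [DistribMulAction F N]

/-- the homomorphism into the Heisenberg group -/
def hz_hom [Fact (Ivt Q B)] (ρ : F →* Q) (hM : ∀ (x : F) (m : M), x • m = ρ x • m)
    (hN : ∀ (x : F) (n : N), x • n = ρ x • n) {k : F → N} {c : F → M} {z : F → A} (hk : CH k)
    (hc : CH c) (hz : Zf B k c z) : F →* Hz B Q where
  toFun x := ⟨ρ x, k x, c x, z x⟩
  map_one' := by rw [map_one, hk.one, hc.one, hz.one hk]; rfl
  map_mul' x y := by rw [map_mul, hk, hc, hz, hN, hM]; rfl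

theorem ivt_of (ρ : F →* Q) (hρ : Function.Surjective ρ)
    (hM : ∀ (x : F) (m : M), x • m = ρ x • m) (hN : ∀ (x : F) (n : N), x • n = ρ x • n)
    (hB : Ivt F B) : Ivt Q B := by
  intro q n m
  obtain ⟨x, rfl⟩ := hρ q
  rw [← hM, ← hN]
  exact hB x n m

theorem ivt_to (ρ : F →* Q) (hM : ∀ (x : F) (m : M), x • m = ρ x • m)
    (hN : ∀ (x : F) (n : N), x • n = ρ x • n) (hB : Ivt Q B) : Ivt F B := by
  intro x n m
  rw [hM, hN]
  exact hB _ n m

/-- existence of `z` with given values on the generators -/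
theorem zf_exists {ι : Type} [DistribMulAction (FreeGroup ι) M] [DistribMulAction (FreeGroup ι) N]
    (hB : Ivt (FreeGroup ι) B) {k : FreeGroup ι → N} {c : FreeGroup ι → M} (hk : CH k)
    (hc : CH c) (f : ι → A) :
    ∃ z : FreeGroup ι → A, Zf B k c z ∧ ∀ i, z (FreeGroup.of i) = f i := by
  have : Fact (Ivt (FreeGroup ι) B) := ⟨hB⟩
  set Θ : FreeGroup ι →* Hz B (FreeGroup ι) := FreeGroup.lift fun i =>
    (⟨FreeGroup.of i, k (FreeGroup.of i), c (FreeGroup.of i), f i⟩ : Hz B (FreeGroup ι)) with hΘ
  have hof : ∀ i, Θ (FreeGroup.of i) =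
      ⟨FreeGroup.of i, k (FreeGroup.of i), c (FreeGroup.of i), f i⟩ := by
    intro i
    rw [hΘ, FreeGroup.lift_apply_of]
  have h1 : ∀ x, (Θ x).x = x ∧ (Θ x).n = k x ∧ (Θ x).m = c x := by
    intro x
    refine FreeGroup.induction_on x ?_ ?_ ?_ ?_
    · rw [map_one, hk.one, hc.one, hz_one]
      exact ⟨rfl, rfl, rfl⟩
    · intro i
      rw [hof]
      exact ⟨rfl, rfl, rfl⟩
    · intro i hi
      rw [map_inv, hz_inv, hk.inv, hc.inv]
      obtain ⟨h2, h3, h4⟩ := hi
      refine ⟨?_, ?_, ?_⟩
      · simp only [h2]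
      · simp only [h2, h3]
      · simp only [h2, h4]
    · intro x y hx hy
      rw [map_mul, hz_mul, hk, hc]
      obtain ⟨h2, h3, h4⟩ := hx
      obtain ⟨h5, h6, h7⟩ := hy
      refine ⟨?_, ?_, ?_⟩
      · simp only [h2, h5]
      · simp only [h2, h3, h6]
      · simp only [h2, h4, h7]
  refine ⟨fun x => (Θ x).a, ?_, fun i => by
    change (Θ (FreeGroup.of i)).a = f i
    rw [hof]⟩
  intro x y
  change (Θ (x * y)).a = _
  rw [map_mul, hz_mul]
  simp only [(h1 x).1, (h1 x).2.1, (h1 y).2.2]

end hz

section tav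

variable {V I J : Type} {M N A : Type} [AddCommGroup M] [AddCommGroup N] [AddCommGroup A]
  [DistribMulAction (FreeGroup (V ⊕ I)) M] [DistribMulAction (FreeGroup (V ⊕ I)) N]
  {B : N →+ M →+ A}

/-- the letters `t_v` -/
def lt (v : V) : FreeGroup (V ⊕ I) := FreeGroup.of (Sum.inl v)
/-- the letters `A_i` -/
def la (i : I) : FreeGroup (V ⊕ I) := FreeGroup.of (Sum.inr i)

/-- the crossed homomorphism of the conjugations `m` -/
def cm (b : I → J) (m : J → M) : FreeGroup (V ⊕ I) → M :=
  chl (ext0 (V := V) fun i => dm (m (b i)) (la (V := V) i))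

theorem cm_ch (b : I → J) (m : J → M) : CH (cm (V := V) b m) := chl_ch _

theorem cm_lt (b : I → J) (m : J → M) (v : V) : cm (V := V) b m (lt v) = 0 := chl_of _ _

theorem cm_la (b : I → J) (m : J → M) (i : I) :
    cm (V := V) b m (la i) = dm (m (b i)) (la (V := V) i) := chl_of _ _

theorem cm_sub (b : I → J) (m m' : J → M) :
    cm (V := V) b (m - m') = fun x => cm (V := V) b m x - cm (V := V) b m' x := by
  refine ch_ext (cm_ch b _) ((cm_ch b m).sub (cm_ch b m')) ?_
  rintro (v | i)
  · change cm (V := V) b (m - m') (lt v) = cm (V := V) b m (lt v) - cm (V := V) b m' (lt v)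
    rw [cm_lt, cm_lt, cm_lt, sub_zero]
  · change cm (V := V) b (m - m') (la i) = cm (V := V) b m (la i) - cm (V := V) b m' (la i)
    rw [cm_la, cm_la, cm_la]
    simp only [dm, Pi.sub_apply, smul_sub]
    abel

theorem cm_mem (Φ : Fil (FreeGroup (V ⊕ I)) M) (b : I → J) (m : J → M) (k : ℕ)
    (h : ∀ j, m j ∈ Φ.G k) (x : FreeGroup (V ⊕ I)) : cm (V := V) b m x ∈ Φ.G (k + 1) := by
  refine ch_mem (cm_ch b m) _ (fun x n hn => Φ.stab _ x n hn) ?_ x
  rintro (v | i)
  · change cm (V := V) b m (lt v) ∈ _
    rw [cm_lt]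
    exact AddSubgroup.zero_mem _
  · change cm (V := V) b m (la i) ∈ _
    rw [cm_la]
    have h1 := Φ.step k (la (V := V) i) _ (h (b i))
    have h2 := (Φ.G (k + 1)).neg_mem h1
    rw [neg_sub] at h2
    exact h2

/-- the substitution -/
def Tm (b : I → J) (js : List J) (w : J → FreeGroup (V ⊕ I)) (m : J → M) (j : J) : M :=
  m j - ((aft js j).map fun i => cm (V := V) b m (w i)).sum

theorem tm_bij [Finite M] [Finite J] (Φ : Fil (FreeGroup (V ⊕ I)) M) (b : I → J) (js : List J)
    (w : J → FreeGroup (V ⊕ I)) : Function.Bijective (Tm (M := M) (V := V) b js w) := by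
  refine Finite.injective_iff_bijective.mp ?_
  intro m m' h
  have h1 : ∀ j, (m - m') j = ((aft js j).map fun i => cm (V := V) b (m - m') (w i)).sum := by
    intro j
    have h2 := congrFun h j
    simp only [Tm] at h2
    have h3 : ∀ l : List J, (l.map fun i => cm (V := V) b (m - m') (w i)).sum =
        (l.map fun i => cm (V := V) b m (w i)).sum -
          (l.map fun i => cm (V := V) b m' (w i)).sum := by
      intro l
      induction l with
      | nil => simp
      | cons i l ih =>
        have h4 : cm (V := V) b (m - m') (w i) = cm (V := V) b m (w i) - cm (V := V) b m' (w i) :=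
          congrFun (cm_sub (V := V) b m m') (w i)
        rw [List.map_cons, List.sum_cons, ih, List.map_cons, List.sum_cons, List.map_cons,
          List.sum_cons, h4]
        abel
    rw [h3, Pi.sub_apply, sub_eq_sub_iff_add_eq_add]
    rw [sub_eq_sub_iff_add_eq_add] at h2
    rw [h2]
    abel
  have key : ∀ k, ∀ j, (m - m') j ∈ Φ.G k := by
    intro k
    induction k with
    | zero =>
      intro j
      rw [Φ.top]
      exact AddSubgroup.mem_top _
    | succ k ih =>
      intro j
      rw [h1 j]
      refine AddSubgroup.list_sum_mem _ ?_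
      intro y hy
      obtain ⟨i, -, rfl⟩ := List.mem_map.mp hy
      exact cm_mem Φ b _ k ih _
  funext j
  have h2 := key Φ.len j
  rw [Φ.bot, AddSubgroup.mem_bot, Pi.sub_apply] at h2
  exact sub_eq_zero.mp h2

/-- THE AVERAGING -/
theorem tav [Finite M] [Fintype J] [Fintype (J → M)] (hB : Ivt (FreeGroup (V ⊕ I)) B)
    (Φ : Fil (FreeGroup (V ⊕ I)) M) {k : FreeGroup (V ⊕ I) → N} (hk : CH k) (vs : List V)
    (X : V → FreeGroup (V ⊕ I)) (ht : ∀ v ∈ vs, k (lt v) = 0 ∧ ∀ n : N, lt (I := I) v • n = n)
    (d : I → FreeGroup (V ⊕ I)) (js : List J) (hjs : js.Nodup)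
    (bl : J → List I) (hbl : ∀ j ∈ js, (bl j).Nodup) (b : I → J)
    (hb : ∀ j ∈ js, ∀ i ∈ bl j, b i = j)
    (hW : ∀ j ∈ js, ∀ y : M, wd la d (bl j) • y = y)
    (hrel : ∀ (m : J → M) (z : FreeGroup (V ⊕ I) → A), Zf B k (cm b m) z →
      z ((vs.map fun v => ⁅lt (I := I) v, X v⁆).prod * (js.map fun j => wd la d (bl j)).prod) = 0)
    (e : AddChar A ℂ) (hnd : ∀ n : N, n ≠ 0 → ∃ m : M, e (B n m) ≠ 1)
    (j₀ : J) (hj₀ : j₀ ∈ js) (hkj : k (wd la d (bl j₀)) ≠ 0) :
    ∑ m : J → M, e (js.map fun j => ((bl j).map fun i =>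
      B (zeta k la d (bl j) i) (cm b m (d i) - dm (m j) (d i))).sum).sum = 0 := by
  classical
  have h1 : ∀ m : J → M, (js.map fun j => ((bl j).map fun i =>
      B (zeta k la d (bl j) i) (cm b m (d i) - dm (m j) (d i))).sum).sum =
      (js.map fun j => B (k (wd la d (bl j)))
        (Tm b js (fun i => wd la d (bl i)) m j)).sum := by
    intro m
    obtain ⟨z, hz, -⟩ := zf_exists hB hk (cm_ch (V := V) b m) (fun _ => (0 : A))
    refine tav_eq hB hz hk (cm_ch b m) vs lt X
      (fun v hv => ⟨(ht v hv).1, cm_lt b m v, (ht v hv).2⟩) la d js hjs bl hbl m ?_ hW (hrel m z hz)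
    intro j hj i hi
    rw [cm_la, hb j hj i hi]
  simp_rw [h1]
  set T : (J → M) ≃ (J → M) :=
    Equiv.ofBijective _ (tm_bij (V := V) Φ b js (fun i => wd la d (bl i))) with hT
  have h2 : ∑ m : J → M, e (js.map fun j => B (k (wd la d (bl j)))
        (Tm b js (fun i => wd la d (bl i)) m j)).sum =
      ∑ m : J → M, e (js.map fun j => B (k (wd la d (bl j))) (m j)).sum := by
    rw [← T.sum_comp (fun m : J → M => e (js.map fun j => B (k (wd la d (bl j))) (m j)).sum)]
    rfl
  rw [h2]
  set L : (J → M) →+ A :=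
    { toFun := fun m => (js.map fun j => B (k (wd la d (bl j))) (m j)).sum
      map_zero' := by
        have : ∀ l : List J, (l.map fun j => B (k (wd la d (bl j))) ((0 : J → M) j)).sum = 0 := by
          intro l
          induction l with
          | nil => rfl
          | cons j l ih =>
            rw [List.map_cons, List.sum_cons, ih, Pi.zero_apply, map_zero, add_zero]
        exact this js
      map_add' := by
        intro m m'
        have : ∀ l : List J, (l.map fun j => B (k (wd la d (bl j))) ((m + m') j)).sum =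
            (l.map fun j => B (k (wd la d (bl j))) (m j)).sum +
            (l.map fun j => B (k (wd la d (bl j))) (m' j)).sum := by
          intro l
          induction l with
          | nil => simp
          | cons j l ih =>
            rw [List.map_cons, List.sum_cons, ih, Pi.add_apply, map_add, List.map_cons,
              List.sum_cons, List.map_cons, List.sum_cons]
            abel
        exact this js } with hL
  have h3 : e.compAddMonoidHom L ≠ 0 := by
    obtain ⟨m₀, hm₀⟩ := hnd _ hkj
    intro h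
    apply hm₀
    have h4 : L (Pi.single j₀ m₀) = B (k (wd la d (bl j₀))) m₀ := by
      have h5 : ∀ l : List J, l.Nodup →
          (l.map fun j => B (k (wd la d (bl j))) ((Pi.single j₀ m₀ : J → M) j)).sum =
          if j₀ ∈ l then B (k (wd la d (bl j₀))) m₀ else 0 := by
        intro l
        induction l with
        | nil => intro _; simp
        | cons j l ih =>
          intro hn
          rw [List.map_cons, List.sum_cons, ih hn.of_cons]
          by_cases hj : j = j₀
          · subst hj
            rw [Pi.single_eq_same, if_neg (List.nodup_cons.mp hn).1, if_pos List.mem_cons_self,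
              add_zero]
          · rw [Pi.single_eq_of_ne hj, map_zero, zero_add]
            by_cases hj' : j₀ ∈ l
            · rw [if_pos hj', if_pos (List.mem_cons_of_mem _ hj')]
            · rw [if_neg hj', if_neg]
              intro hc
              rcases List.mem_cons.mp hc with h6 | h6
              · exact hj h6.symm
              · exact hj' h6
      have h6 := h5 js hjs
      rw [if_pos hj₀] at h6
      exact h6
    have h7 : e (L (Pi.single j₀ m₀)) = 1 := by
      have := DFunLike.congr_fun h (Pi.single j₀ m₀)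
      rwa [AddChar.compAddMonoidHom_apply, AddChar.zero_apply] at this
    rw [← h4]
    exact h7
  have h4 := AddChar.sum_eq_zero_iff_ne_zero.mpr h3
  exact h4

end tav

end H1.S3
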