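import Pool.Agent.H1.S3.Prz

/-!
# H1-S3-Zet: crossed homomorphisms of a free group, filtrations, bijectivity of `ζ` (stage 3, chapter B, (3.4))

* `Sd F N`: the semidirect product; `chl f`: the crossed homomorphism of a free group with given values on the generators.
* `Fil F N`: a finite filtration of `N` with trivial action on the quotients; `fil_p`: it exists for `p`-groups; `Fil.map`.
* `zet_inj`, `zet_bij` = (3.4).
-/

set_option autoImplicit false

open scoped commutatorElement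

noncomputable section

namespace H1.S3

section sd

variable (F N : Type) [Group F] [AddCommGroup N] [DistribMulAction F N]

/-- the semidirect product -/
@[ext] structure Sd where
  n : N
  x : F

variable {F N}

instance : Mul (Sd F N) := ⟨fun a b => ⟨a.n + a.x • b.n, a.x * b.x⟩⟩
instance : One (Sd F N) := ⟨⟨0, 1⟩⟩
instance : Inv (Sd F N) := ⟨fun a => ⟨-(a.x⁻¹ • a.n), a.x⁻¹⟩⟩

theorem sd_mul (a b : Sd F N) : a * b = ⟨a.n + a.x • b.n, a.x * b.x⟩ := rfl
theorem sd_one : (1 : Sd F N) = ⟨0, 1⟩ := rfl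
theorem sd_inv (a : Sd F N) : a⁻¹ = ⟨-(a.x⁻¹ • a.n), a.x⁻¹⟩ := rfl

instance : Group (Sd F N) :=
  Group.ofLeftAxioms
    (by
      intro a b c
      simp only [sd_mul, smul_add, mul_smul, add_assoc, mul_assoc])
    (by
      intro a
      simp only [sd_mul, sd_one, one_smul, zero_add, one_mul])
    (by
      intro a
      simp only [sd_mul, sd_inv, sd_one, neg_add_cancel, inv_mul_cancel])

/-- projection to `F` -/
def Sd.pr : Sd F N →* F where
  toFun := Sd.x
  map_one' := rfl
  map_mul' _ _ := rfl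

end sd

section free

variable {ι : Type} {N : Type} [AddCommGroup N] [DistribMulAction (FreeGroup ι) N]

/-- the crossed homomorphism with given values on the generators -/
def chl (f : ι → N) (x : FreeGroup ι) : N :=
  (FreeGroup.lift (fun i => (⟨f i, FreeGroup.of i⟩ : Sd (FreeGroup ι) N)) x).n

theorem chl_x (f : ι → N) (x : FreeGroup ι) :
    (FreeGroup.lift (fun i => (⟨f i, FreeGroup.of i⟩ : Sd (FreeGroup ι) N)) x).x = x := by
  have h : (Sd.pr (F := FreeGroup ι) (N := N)).comp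
      (FreeGroup.lift (fun i => (⟨f i, FreeGroup.of i⟩ : Sd (FreeGroup ι) N))) =
      MonoidHom.id _ := by
    ext i
    simp only [MonoidHom.comp_apply, FreeGroup.lift_apply_of, MonoidHom.id_apply]
    rfl
  exact DFunLike.congr_fun h x

theorem chl_ch (f : ι → N) : CH (chl f) := by
  intro x y
  unfold chl
  rw [map_mul, sd_mul]
  simp only [chl_x]

theorem chl_of (f : ι → N) (i : ι) : chl f (FreeGroup.of i) = f i := by
  unfold chl
  rw [FreeGroup.lift_apply_of]

/-- values in a stable subgroup -/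
theorem ch_mem {k : FreeGroup ι → N} (hk : CH k) (G : AddSubgroup N)
    (hG : ∀ (x : FreeGroup ι) (n : N), n ∈ G → x • n ∈ G)
    (h : ∀ i, k (FreeGroup.of i) ∈ G) (x : FreeGroup ι) : k x ∈ G := by
  refine FreeGroup.induction_on x ?_ ?_ ?_ ?_
  · rw [hk.one]
    exact G.zero_mem
  · exact h
  · intro i _
    rw [hk.inv]
    exact G.neg_mem (hG _ _ (h i))
  · intro x y hx hy
    rw [hk]
    exact G.add_mem hx (hG _ _ hy)

theorem ch_ext {k k' : FreeGroup ι → N} (hk : CH k) (hk' : CH k')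
    (h : ∀ i, k (FreeGroup.of i) = k' (FreeGroup.of i)) : k = k' := by
  funext x
  have h1 := ch_mem (hk.sub hk') ⊥ (by
    intro x n hn
    rw [AddSubgroup.mem_bot] at hn ⊢
    rw [hn, smul_zero]) (by
    intro i
    rw [AddSubgroup.mem_bot, h i, sub_self]) x
  rw [AddSubgroup.mem_bot] at h1
  exact sub_eq_zero.mp h1

end free

section fil

variable (F N : Type) [Group F] [AddCommGroup N] [DistribMulAction F N]

/-- a filtration with trivial action on the quotients -/
structure Fil where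
  G : ℕ → AddSubgroup N
  top : G 0 = ⊤
  len : ℕ
  bot : G len = ⊥
  anti : ∀ k, G (k + 1) ≤ G k
  step : ∀ (k : ℕ) (x : F) (n : N), n ∈ G k → x • n - n ∈ G (k + 1)

variable {F N}

theorem Fil.stab (Φ : Fil F N) (k : ℕ) (x : F) (n : N) (h : n ∈ Φ.G k) : x • n ∈ Φ.G k := by
  have h1 := (Φ.G k).add_mem (Φ.anti k (Φ.step k x n h)) h
  rwa [sub_add_cancel] at h1

/-- restriction along a homomorphism -/
def Fil.map {F' : Type} [Group F'] [DistribMulAction F' N] (Φ : Fil F N) (ρ : F' →* F)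
    (hρ : ∀ (x : F') (n : N), x • n = ρ x • n) : Fil F' N where
  G := Φ.G
  top := Φ.top
  len := Φ.len
  bot := Φ.bot
  anti := Φ.anti
  step k x n h := by
    rw [hρ]
    exact Φ.step k (ρ x) n h

/-- existence for `p`-groups -/
theorem fil_p {p : ℕ} [hp : Fact p.Prime] [Finite F] [Finite N] (hF : IsPGroup p F)
    (hN : ∃ r, Nat.card N = p ^ r) : Nonempty (Fil F N) := by
  have hfin : Finite (Sd F N) := by
    refine Finite.of_injective (fun a : Sd F N => (a.n, a.x)) ?_
    intro a b h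
    exact Sd.ext (congrArg Prod.fst h) (congrArg Prod.snd h)
  have hcard : Nat.card (Sd F N) = Nat.card N * Nat.card F := by
    rw [← Nat.card_prod]
    refine Nat.card_congr ⟨fun a => (a.n, a.x), fun a => ⟨a.1, a.2⟩, fun _ => rfl, fun _ => rfl⟩
  have hP : IsPGroup p (Sd F N) := by
    obtain ⟨r, hr⟩ := hN
    obtain ⟨s, hs⟩ := (IsPGroup.iff_card).mp hF
    rw [IsPGroup.iff_card]
    exact ⟨r + s, by rw [hcard, hr, hs, pow_add]⟩
  have hnil : Group.IsNilpotent (Sd F N) := hP.isNilpotent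
  obtain ⟨l, hl⟩ := (Subgroup.nilpotent_iff_lowerCentralSeries).mp hnil
  set G : ℕ → AddSubgroup N := fun k =>
    { carrier := {n | (⟨n, 1⟩ : Sd F N) ∈ (⊤ : Subgroup (Sd F N)).lowerCentralSeries k}
      add_mem' := by
        intro a b ha hb
        have h1 : (⟨a + b, 1⟩ : Sd F N) = ⟨a, 1⟩ * ⟨b, 1⟩ := by rw [sd_mul, one_smul, one_mul]
        change (⟨a + b, 1⟩ : Sd F N) ∈ (⊤ : Subgroup (Sd F N)).lowerCentralSeries k
        rw [h1]
        exact Subgroup.mul_mem _ ha hb
      zero_mem' := by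
        change (⟨0, 1⟩ : Sd F N) ∈ (⊤ : Subgroup (Sd F N)).lowerCentralSeries k
        exact Subgroup.one_mem _
      neg_mem' := by
        intro a ha
        have h1 : (⟨-a, 1⟩ : Sd F N) = (⟨a, 1⟩ : Sd F N)⁻¹ := by rw [sd_inv, inv_one, one_smul]
        change (⟨-a, 1⟩ : Sd F N) ∈ (⊤ : Subgroup (Sd F N)).lowerCentralSeries k
        rw [h1]
        exact Subgroup.inv_mem _ ha } with hG
  have hmem : ∀ k n, n ∈ G k ↔
      (⟨n, 1⟩ : Sd F N) ∈ (⊤ : Subgroup (Sd F N)).lowerCentralSeries k := fun _ _ => Iff.rfl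
  refine ⟨⟨G, ?_, l, ?_, ?_, ?_⟩⟩
  · rw [eq_top_iff]
    intro n _
    rw [hmem]
    exact Subgroup.mem_top _
  · rw [eq_bot_iff]
    intro n hn
    rw [hmem, hl, Subgroup.mem_bot, sd_one] at hn
    exact congrArg Sd.n hn
  · intro k n hn
    rw [hmem] at hn ⊢
    exact (⊤ : Subgroup (Sd F N)).lowerCentralSeries_antitone (Nat.le_succ k) hn
  · intro k x n hn
    have h1 : (⟨x • n - n, 1⟩ : Sd F N) = ⁅(⟨0, x⟩ : Sd F N), (⟨n, 1⟩ : Sd F N)⁆ := by
      rw [commutatorElement_def]
      simp only [sd_mul, sd_inv, zero_add, mul_one, smul_zero, neg_zero, add_zero, inv_one,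
        one_smul, mul_inv_cancel, sub_eq_add_neg]
    rw [hmem, h1, Subgroup.lowerCentralSeries_succ, Subgroup.commutator_comm]
    exact Subgroup.commutator_mem_commutator (Subgroup.mem_top _) hn

end fil

section zet

variable {V I : Type} {N : Type} [AddCommGroup N] [DistribMulAction (FreeGroup (V ⊕ I)) N]

/-- commutators -/
theorem ch_comm_mem {F : Type} [Group F] [DistribMulAction F N] (Φ : Fil F N) {k : F → N}
    (hk : CH k) (j : ℕ) (h : ∀ x, k x ∈ Φ.G j) (x y : F) : k ⁅x, y⁆ ∈ Φ.G (j + 1) := by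
  have h1 := Φ.step j x _ (h y)
  have h2 := Φ.step j (x * y * x⁻¹) _ (h x)
  have h3 := Φ.step j ⁅x, y⁆ _ (h y)
  have h4 : k ⁅x, y⁆ = (x • k y - k y) - ((x * y * x⁻¹) • k x - k x) -
      (⁅x, y⁆ • k y - k y) := by
    rw [hk.comm]
    abel
  rw [h4]
  exact (Φ.G (j + 1)).sub_mem ((Φ.G (j + 1)).sub_mem h1 h2) h3

theorem ch_wd_mem {F J : Type} [Group F] [DistribMulAction F N] (Φ : Fil F N) {k : F → N}
    (hk : CH k) (j : ℕ) (h : ∀ x, k x ∈ Φ.G j) (a d : J → F) (l : List J) :
    k (wd a d l) ∈ Φ.G (j + 1) := by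
  induction l with
  | nil =>
    rw [wd, List.map_nil, List.prod_nil, hk.one]
    exact AddSubgroup.zero_mem _
  | cons i l ih =>
    rw [wd, List.map_cons, List.prod_cons, hk]
    exact AddSubgroup.add_mem _ (ch_comm_mem Φ hk j h _ _) (Φ.stab _ _ _ ih)

/-- `ζ_i = k (A_i)` in the leading term -/
theorem zeta_lead {F J : Type} [Group F] [DistribMulAction F N] (Φ : Fil F N) {k : F → N}
    (hk : CH k) (j : ℕ) (h : ∀ x, k x ∈ Φ.G j) (a d : J → F) (l : List J) (i : J) :
    zeta k a d l i - k (a i) ∈ Φ.G (j + 1) := by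
  set p := wd a d (pre l i) with hp
  have hp1 : k p ∈ Φ.G (j + 1) := ch_wd_mem Φ hk j h a d _
  have hc : k ⁅a i, d i⁆ ∈ Φ.G (j + 1) := ch_comm_mem Φ hk j h _ _
  have h1 : k ((p * ⁅a i, d i⁆)⁻¹) ∈ Φ.G (j + 1) := by
    rw [hk.inv, hk]
    exact AddSubgroup.neg_mem _ (Φ.stab _ _ _ (AddSubgroup.add_mem _ hp1 (Φ.stab _ _ _ hc)))
  have h2 : k ((p * a i)⁻¹) + k (a i) ∈ Φ.G (j + 1) := by
    have h3 : k ((p * a i)⁻¹) + k (a i) = -((a i)⁻¹ • k (a i) - k (a i)) -
        (p * a i)⁻¹ • k p := by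
      rw [hk.inv, hk, smul_add, smul_smul, mul_inv_rev, mul_assoc, inv_mul_cancel, mul_one]
      abel
    rw [h3]
    exact AddSubgroup.sub_mem _ (AddSubgroup.neg_mem _ (Φ.step _ _ _ (h _))) (Φ.stab _ _ _ hp1)
  have h4 : zeta k a d l i - k (a i) = k ((p * ⁅a i, d i⁆)⁻¹) - (k ((p * a i)⁻¹) + k (a i)) := by
    rw [zeta]
    abel
  rw [h4]
  exact AddSubgroup.sub_mem _ h1 h2

/-- (3.4), injectivity -/
theorem zet_inj (Φ : Fil (FreeGroup (V ⊕ I)) N) {k : FreeGroup (V ⊕ I) → N} (hk : CH k)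
    (hV : ∀ v : V, k (FreeGroup.of (Sum.inl v)) = 0) (d : I → FreeGroup (V ⊕ I))
    (bl : I → List I)
    (hz : ∀ i, zeta k (fun i => FreeGroup.of (Sum.inr i)) d (bl i) i = 0) (x) : k x = 0 := by
  have key : ∀ j, ∀ i : I, k (FreeGroup.of (Sum.inr i)) ∈ Φ.G j := by
    intro j
    induction j with
    | zero =>
      intro i
      rw [Φ.top]
      exact AddSubgroup.mem_top _
    | succ j ih =>
      intro i
      have h1 : ∀ x, k x ∈ Φ.G j := by
        refine ch_mem hk (Φ.G j) (fun x n hn => Φ.stab j x n hn) ?_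
        rintro (v | i)
        · rw [hV]
          exact AddSubgroup.zero_mem _
        · exact ih i
      have h2 := zeta_lead Φ hk j h1 (fun i => FreeGroup.of (Sum.inr i)) d (bl i) i
      rw [hz, zero_sub] at h2
      exact (AddSubgroup.neg_mem_iff _).mp h2
  have h1 := ch_mem hk (Φ.G Φ.len) (fun x n hn => Φ.stab _ x n hn) (by
    rintro (v | i)
    · rw [hV]
      exact AddSubgroup.zero_mem _
    · exact key _ i) x
  rw [Φ.bot, AddSubgroup.mem_bot] at h1
  exact h1

/-- values on the letters `A` -/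
def ext0 (f : I → N) : V ⊕ I → N := Sum.elim (fun _ => 0) f

theorem chl_sub {ι : Type} [DistribMulAction (FreeGroup ι) N] (f g : ι → N) :
    chl (f - g) = fun x => chl f x - chl g x := by
  refine ch_ext (chl_ch _) ((chl_ch f).sub (chl_ch g)) ?_
  intro i
  simp only [chl_of, Pi.sub_apply]

theorem zeta_sub {F J : Type} [Group F] (k k' : F → N) (a d : J → F) (l : List J) (i : J) :
    zeta (fun x => k x - k' x) a d l i = zeta k a d l i - zeta k' a d l i := by
  simp only [zeta]
  abel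

/-- (3.4) -/
theorem zet_bij [Finite N] [Finite I] (Φ : Fil (FreeGroup (V ⊕ I)) N)
    (d : I → FreeGroup (V ⊕ I)) (bl : I → List I) :
    Function.Bijective (fun (f : I → N) (i : I) =>
      zeta (chl (ext0 (V := V) f)) (fun i => FreeGroup.of (Sum.inr i)) d (bl i) i) := by
  refine Finite.injective_iff_bijective.mp ?_
  intro f g h
  have h1 : ∀ i, zeta (chl (ext0 (V := V) (f - g))) (fun i => FreeGroup.of (Sum.inr i)) d (bl i) i
      = 0 := by
    intro i
    have h2 : (ext0 (V := V) (f - g)) = ext0 f - ext0 g := by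
      funext y
      rcases y with v | i
      · simp only [ext0, Sum.elim_inl, Pi.sub_apply, sub_zero]
      · rfl
    rw [h2, chl_sub, zeta_sub, sub_eq_zero]
    exact congrFun h i
  funext i
  have h3 := zet_inj Φ (chl_ch _) (fun v => by rw [chl_of]; rfl) d bl h1 (FreeGroup.of (Sum.inr i))
  rw [chl_of] at h3
  exact sub_eq_zero.mp h3

end zet

end H1.S3
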