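import Pool.Agent.H1.S3.Prz

/-!
# H1-S3-ZON: blocks with one letter (MP_b39724_nt, all classes, stage 3, chapter B, think 1707)

`zeta_one`: if `k ⁅a i, d i⁆ = 0` and `a i` acts trivially, then `zeta k a d [i] i = k (a i)`.
`zeta_fix`: and then `d i` fixes `k (a i)`.
-/

set_option autoImplicit false

open scoped commutatorElement

noncomputable section

namespace H1.S3

variable {F : Type} [Group F] {N : Type} [AddCommGroup N] [DistribMulAction F N]

theorem zeta_one {I : Type} {k : F → N} (hk : CH k) (a d : I → F) (i : I)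
    (h0 : k ⁅a i, d i⁆ = 0) (ha : ∀ n : N, a i • n = n) : zeta k a d [i] i = k (a i) := by
  have h1 : pre [i] i = [] := pre_append [] [] i (by simp)
  have h2 : wd a d ([] : List I) = 1 := by rw [wd, List.map_nil, List.prod_nil]
  rw [zeta, h1, h2, one_mul, one_mul, hk.inv, hk.inv, h0, smul_zero, neg_zero, zero_sub, neg_neg]
  have := ha ((a i)⁻¹ • k (a i))
  rw [smul_inv_smul] at this
  exact this.symm

theorem zeta_fix {I : Type} {k : F → N} (hk : CH k) (a d : I → F) (i : I)
    (h0 : k ⁅a i, d i⁆ = 0) (ha : ∀ n : N, a i • n = n) : d i • k (a i) = k (a i) := by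
  have hc := hk.comm (a i) (d i)
  have h1 : ∀ n : N, ⁅a i, d i⁆ • n = n := by
    intro n
    rw [commutatorElement_def, mul_smul, mul_smul, mul_smul]
    have h3 : (a i)⁻¹ • (d i)⁻¹ • n = (d i)⁻¹ • n := by
      have := ha ((a i)⁻¹ • (d i)⁻¹ • n)
      rw [smul_inv_smul] at this
      exact this.symm
    rw [h3, smul_inv_smul, ha]
  have h2 : (a i * d i * (a i)⁻¹) • k (a i) = d i • k (a i) := by
    rw [mul_smul, mul_smul]
    have h3 : (a i)⁻¹ • k (a i) = k (a i) := by
      have := ha ((a i)⁻¹ • k (a i))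
      rw [smul_inv_smul] at this
      exact this.symm
    rw [h3, ha]
  rw [h0, h1, h2, ha] at hc
  have h4 : k (a i) - d i • k (a i) = 0 := by
    rw [hc]
    abel
  exact (sub_eq_zero.1 h4).symm

end H1.S3
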